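import Pool.Agent.X185.KS.Game

/-!
# The adversary on the four-cycle

The points `(1,0), (0,1), (-1,0), (0,-1)` of the plane with the sup metric form a four-cycle with
unit sides.  With three servers the adversary given by the tables below forces the ratio 3.
-/

set_option autoImplicit false

namespace Pool.Agent.X185.KS

open Finset

namespace Base

/-- the next request -/
def tT : List ℕ :=
  [0, 0, 0, 0, 0, 0, 0, 0, 1, 3, 1, 1, 0, 0, 2, 2, 2, 2, 0, 0, 3, 3, 1, 3, 0, 2, 0, 0, 0, 0, 0,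
  0, 0, 0, 0, 0, 2, 2, 0, 0, 2, 0, 3, 3, 0, 0, 3, 3, 0, 0, 0, 0, 0, 0, 0, 1, 1, 3, 1, 0, 0, 0,
  0, 0, 0, 0, 0, 3, 3, 3, 1, 0, 0, 2, 0, 0, 0, 0, 1, 1, 0, 1, 0, 1, 2, 2, 0, 2, 0, 0, 0, 0, 0,
  0, 0, 0, 0]

/-- the next work function -/
def tW : List ℕ :=
  [0, 0, 0, 0, 0, 0, 0, 0, 4, 3, 4, 5, 0, 0, 2, 3, 4, 2, 0, 0, 3, 3, 4, 5, 5, 1, 0, 0, 4, 5, 0,
  0, 0, 0, 0, 0, 1, 1, 0, 0, 4, 5, 0, 1, 0, 0, 0, 5, 0, 2, 2, 3, 4, 0, 0, 1, 4, 3, 4, 0, 0, 0,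
  0, 0, 0, 0, 0, 1, 3, 3, 4, 0, 5, 1, 0, 3, 0, 5, 0, 1, 0, 0, 0, 5, 1, 1, 0, 3, 0, 5, 0, 0, 0,
  0, 0, 0, 3]

/-- the increase of the offline cost -/
def tI : List ℕ :=
  [0, 0, 0, 0, 0, 0, 0, 0, 0, 0, 0, 0, 0, 0, 0, 0, 0, 1, 0, 0, 0, 0, 0, 0, 0, 0, 0, 0, 0, 0, 0,
  0, 0, 0, 0, 0, 0, 0, 0, 0, 0, 0, 0, 0, 0, 0, 1, 0, 0, 1, 0, 0, 0, 0, 0, 0, 0, 0, 0, 0, 0, 0,
  0, 0, 0, 0, 0, 0, 0, 0, 0, 0, 0, 0, 0, 0, 0, 0, 0, 0, 0, 1, 0, 0, 0, 0, 0, 0, 0, 0, 0, 0, 0,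
  0, 0, 0, 0]

/-- potential for the ratio -/
def tA : List ℕ :=
  [0, 0, 0, 0, 0, 0, 0, 0, 0, 2, 2, 1, 0, 0, 2, 2, 2, 2, 0, 0, 0, 2, 2, 1, 0, 2, 0, 0, 1, 2, 0,
  0, 0, 0, 0, 0, 0, 2, 0, 0, 1, 2, 2, 2, 0, 0, 2, 2, 0, 2, 2, 2, 2, 0, 0, 1, 0, 2, 2, 0, 0, 0,
  0, 0, 0, 0, 0, 1, 0, 2, 2, 0, 0, 2, 0, 1, 0, 2, 2, 2, 0, 2, 0, 2, 0, 2, 0, 1, 0, 2, 0, 0, 0,
  0, 0, 0, 0]

/-- potential for the progress -/
def tB : List ℕ :=
  [0, 0, 0, 0, 0, 0, 0, 0, 1, 1, 1, 1, 0, 0, 1, 1, 1, 0, 0, 0, 1, 1, 1, 1, 1, 1, 0, 0, 1, 1, 0,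
  0, 0, 0, 0, 0, 1, 1, 0, 0, 1, 1, 1, 1, 0, 0, 0, 1, 0, 0, 1, 1, 1, 0, 0, 1, 1, 1, 1, 0, 0, 0,
  0, 0, 0, 0, 0, 1, 1, 1, 1, 0, 1, 1, 0, 1, 0, 1, 1, 1, 0, 0, 0, 1, 1, 1, 0, 1, 0, 1, 0, 0, 0,
  0, 0, 0, 0]

/-- valid states -/
def tV : List ℕ :=
  [0, 0, 0, 0, 0, 0, 0, 0, 1, 1, 1, 1, 0, 0, 1, 1, 1, 1, 0, 0, 1, 1, 1, 1, 1, 1, 0, 0, 1, 1, 0,
  0, 0, 0, 0, 0, 1, 1, 0, 0, 1, 1, 1, 1, 0, 0, 1, 1, 0, 1, 1, 1, 1, 0, 0, 1, 1, 1, 1, 0, 0, 0,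
  0, 0, 0, 0, 0, 1, 1, 1, 1, 0, 1, 1, 0, 1, 0, 1, 1, 1, 0, 1, 0, 1, 1, 1, 0, 1, 0, 1, 0, 0, 0,
  0, 0, 0, 0]

/-- the work functions -/
def tWf : List (List ℕ) :=
  [[0, 1, 0, 1], [0, 1, 2, 1], [1, 0, 1, 0], [1, 0, 1, 2], [1, 2, 1, 0], [2, 1, 0, 1]]

/-- distances of the four-cycle -/
def d4 (a b : ℕ) : ℕ := if a = b then 0 else if (a + b) % 2 = 1 then 1 else 2

/-- next request -/
def T (s : ℕ) : ℕ := tT.getD s 0
/-- next work function -/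
def Wn (s : ℕ) : ℕ := tW.getD s 0
/-- increase -/
def I (s : ℕ) : ℕ := tI.getD s 0
/-- potential -/
def pA (s : ℕ) : ℕ := tA.getD s 0
/-- potential -/
def pB (s : ℕ) : ℕ := tB.getD s 0
/-- validity -/
def V (s : ℕ) : ℕ := tV.getD s 0
/-- value of the work function -/
def Wf (w x : ℕ) : ℕ := (tWf.getD w []).getD x 0
/-- the next state -/
def nxt (s h : ℕ) : ℕ := T s * 24 + h * 6 + Wn s

lemma T_lt : ∀ s < 97, T s < 4 := by decide +kernel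

lemma T_lt' (s : ℕ) : T s < 4 := by
  by_cases h : s < 97
  · exact T_lt s h
  · unfold T
    rw [List.getD_eq_default]
    · norm_num
    · change 97 ≤ s
      omega

/-- one check -/
def okB (s h : ℕ) : Bool :=
  decide (nxt s h < 96) && (V (nxt s h) == 1) &&
    decide (pA (nxt s h) + 3 * I s ≤ pA s + d4 (s % 24 / 6) h) &&
    decide (pB (nxt s h) + 1 ≤ pB s + 2 * d4 (s % 24 / 6) h) && (nxt s h / 24 == T s) &&
    (nxt s h % 24 / 6 == h) && (nxt s h % 6 == Wn s)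

lemma check1' : ∀ s < 96, ∀ h < 4, (V s = 1 ∧ h ≠ T s ∧ h ≠ s / 24) → okB s h = true := by
  decide +kernel

lemma check1 : ∀ s < 96, V s = 1 → ∀ h < 4, h ≠ T s → h ≠ s / 24 →
    nxt s h < 96 ∧ V (nxt s h) = 1 ∧ pA (nxt s h) + 3 * I s ≤ pA s + d4 (s % 24 / 6) h ∧
      pB (nxt s h) + 1 ≤ pB s + 2 * d4 (s % 24 / 6) h ∧ nxt s h / 24 = T s ∧
      nxt s h % 24 / 6 = h ∧ nxt s h % 6 = Wn s :=
  fun s hs h1 h hh h2 h3 => by
    have := check1' s hs h hh ⟨h1, h2, h3⟩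
    simp only [okB, Bool.and_eq_true, decide_eq_true_eq, beq_iff_eq, and_assoc] at this
    exact this

lemma check2 : ∀ s < 96, V s = 1 → ∀ x < 4, ∃ y < 4, y ≠ T s ∧ y ≠ s / 24 ∧
    Wf (s % 6) y + d4 y x ≤ I s + Wf (Wn s) x := by
  decide +kernel

lemma check3 : ∀ h < 4, h ≠ T 96 → nxt 96 h < 96 ∧ V (nxt 96 h) = 1 ∧ pA (nxt 96 h) ≤ 10 ∧
    pB (nxt 96 h) ≤ 10 ∧ nxt 96 h / 24 = T 96 ∧ nxt 96 h % 24 / 6 = h ∧ nxt 96 h % 6 = Wn 96 := by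
  decide +kernel

lemma check4 : ∀ x < 4, ∃ y < 4, y ≠ T 96 ∧ d4 y x ≤ Wf (Wn 96) x := by
  decide +kernel

lemma check5 : ∀ w < 6, ∃ x < 4, Wf w x = 0 := by decide +kernel

/-- the points -/
noncomputable def e (n : ℕ) : ℝ × ℝ :=
  if n = 0 then (1, 0) else if n = 1 then (0, 1) else if n = 2 then (-1, 0) else (0, -1)

lemma dist_e : ∀ a < 4, ∀ b < 4, dist (e a) (e b) = d4 a b := by
  intro a ha b hb
  interval_cases a <;> interval_cases b <;> simp [e, d4, Prod.dist_eq, Real.dist_eq] <;> norm_num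

open scoped Classical

/-- the four points -/
noncomputable def P : Finset (ℝ × ℝ) := (range 4).image e

/-- the index of a point -/
noncomputable def idx (p : ℝ × ℝ) : ℕ :=
  if p = e 0 then 0 else if p = e 1 then 1 else if p = e 2 then 2 else 3

lemma idx_lt (p : ℝ × ℝ) : idx p < 4 := by
  unfold idx
  split_ifs <;> norm_num

lemma e_inj : ∀ a < 4, ∀ b < 4, e a = e b → a = b := by
  intro a ha b hb h
  by_contra hab
  have h1 := dist_e a ha b hb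
  rw [h, dist_self] at h1
  have h2 : d4 a b ≠ 0 := by
    unfold d4
    rw [if_neg hab]
    split_ifs <;> norm_num
  exact h2 (by exact_mod_cast h1.symm)

lemma e_idx {p : ℝ × ℝ} (hp : p ∈ P) : e (idx p) = p := by
  unfold P at hp
  rw [mem_image] at hp
  obtain ⟨a, ha, rfl⟩ := hp
  rw [mem_range] at ha
  unfold idx
  split_ifs with h0 h1 h2
  · exact h0.symm
  · exact h1.symm
  · exact h2.symm
  · interval_cases a
    · exact absurd rfl h0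
    · exact absurd rfl h1
    · exact absurd rfl h2
    · rfl

lemma e_mem {n : ℕ} (hn : n < 4) : e n ∈ P := mem_image_of_mem e (mem_range.2 hn)

lemma card_P : P.card = 4 := by
  unfold P
  rw [card_image_of_injOn, card_range]
  intro a ha b hb h
  exact e_inj a (by simpa using ha) b (by simpa using hb) h

/-- the state of the adversary -/
noncomputable def stB : List (ℝ × ℝ) → ℕ
  | [] => 96
  | h :: H => nxt (stB H) (idx h)

/-- the requests of the adversary -/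
noncomputable def S (H : List (ℝ × ℝ)) : ℝ × ℝ := e (T (stB H))

lemma idx_ne {h : ℝ × ℝ} (hP : h ∈ P) {n : ℕ} (hh : h ≠ e n) : idx h ≠ n := by
  intro h1
  apply hh
  rw [← h1, e_idx hP]

lemma inv {H : List (ℝ × ℝ)} (hH : Legal P S H) :
    stB H < 96 ∧ V (stB H) = 1 ∧ (∃ g, H.head? = some g ∧ g ∈ P ∧ stB H % 24 / 6 = idx g) ∧
      stB H / 24 = T (stB H.tail) ∧
      ∃ c : ℝ, (pA (stB H) : ℝ) + 3 * c ≤ gcost H + 10 ∧
        (pB (stB H) : ℝ) + H.length ≤ 2 * gcost H + 20 ∧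
        ∀ x < 4, ∃ o c', Off P S H o c' ∧ c' + dist o (e x) ≤ c + Wf (stB H % 6) x := by
  induction hH with
  | @one h h1 h2 =>
    have h3 := idx_ne h1 h2
    obtain ⟨c1, c2, c3, c4, c5, c6, c7⟩ := check3 (idx h) (idx_lt h) h3
    refine ⟨c1, c2, ⟨h, rfl, h1, c6⟩, c5, 0, ?_, ?_, ?_⟩
    · change (pA (nxt 96 (idx h)) : ℝ) + 3 * 0 ≤ 0 + 10
      have : (pA (nxt 96 (idx h)) : ℝ) ≤ 10 := by exact_mod_cast c3
      linarith
    · change (pB (nxt 96 (idx h)) : ℝ) + ((1 : ℕ) : ℝ) ≤ 2 * 0 + 20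
      have : (pB (nxt 96 (idx h)) : ℝ) ≤ 10 := by exact_mod_cast c4
      push_cast
      linarith
    · intro x hx
      obtain ⟨y, hy1, hy2, hy3⟩ := check4 x hx
      refine ⟨e y, 0, Off.one (e_mem hy1) ?_, ?_⟩
      · intro h4
        exact hy2 (e_inj _ hy1 _ (T_lt' _) h4)
      · change 0 + dist (e y) (e x) ≤ 0 + ((Wf (nxt 96 (idx h) % 6) x : ℕ) : ℝ)
        rw [c7, dist_e y hy1 x hx, zero_add, zero_add]
        exact_mod_cast hy3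
  | @cons h g H hleg h1 h2 h3 ih =>
    obtain ⟨i1, i2, ⟨g', i3, i4, i5⟩, i6, c, i7, i8, i9⟩ := ih
    simp only [List.head?_cons, Option.some.injEq] at i3
    subst i3
    have h4 := idx_ne h1 h2
    have h5 : idx h ≠ stB (g :: H) / 24 := by
      rw [i6]
      exact idx_ne h1 h3
    obtain ⟨c1, c2, c3, c4, c5, c6, c7⟩ := check1 _ i1 i2 (idx h) (idx_lt h) h4 h5
    have hd : dist g h = (d4 (stB (g :: H) % 24 / 6) (idx h) : ℕ) := by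
      rw [i5, ← dist_e _ (idx_lt g) _ (idx_lt h), e_idx h1, e_idx i4]
    refine ⟨c1, c2, ⟨h, rfl, h1, c6⟩, c5, c + I (stB (g :: H)), ?_, ?_, ?_⟩
    · change (pA (nxt (stB (g :: H)) (idx h)) : ℝ) + 3 * (c + I (stB (g :: H))) ≤
        (dist g h + gcost (g :: H)) + 10
      rw [hd]
      have : (pA (nxt (stB (g :: H)) (idx h)) : ℝ) + 3 * I (stB (g :: H)) ≤
        pA (stB (g :: H)) + d4 (stB (g :: H) % 24 / 6) (idx h) := by exact_mod_cast c3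
      linarith
    · change (pB (nxt (stB (g :: H)) (idx h)) : ℝ) + (((g :: H).length + 1 : ℕ) : ℝ) ≤
        2 * (dist g h + gcost (g :: H)) + 20
      rw [hd]
      have : (pB (nxt (stB (g :: H)) (idx h)) : ℝ) + 1 ≤
        pB (stB (g :: H)) + 2 * d4 (stB (g :: H) % 24 / 6) (idx h) := by exact_mod_cast c4
      rw [Nat.cast_add, Nat.cast_one]
      linarith
    · intro x hx
      obtain ⟨y, hy1, hy2, hy3, hy4⟩ := check2 _ i1 i2 x hx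
      obtain ⟨o, c', ho, hc'⟩ := i9 y hy1
      refine ⟨e y, c' + dist o (e y), Off.cons ho (e_mem hy1) ?_ ?_, ?_⟩
      · intro h6
        exact hy2 (e_inj _ hy1 _ (T_lt' _) h6)
      · intro h6
        rw [i6] at hy3
        exact hy3 (e_inj _ hy1 _ (T_lt' _) h6)
      · change c' + dist o (e y) + dist (e y) (e x) ≤
          c + I (stB (g :: H)) + ((Wf (nxt (stB (g :: H)) (idx h) % 6) x : ℕ) : ℝ)
        rw [c7, dist_e y hy1 x hx]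
        have : (Wf (stB (g :: H) % 6) y : ℝ) + d4 y x ≤ I (stB (g :: H)) +
          Wf (Wn (stB (g :: H))) x := by exact_mod_cast hy4
        linarith

theorem adv : Adv P 3 := by
  refine ⟨S, 20, 1 / 2, by norm_num, fun H => e_mem (T_lt' _), fun H hH => ?_⟩
  obtain ⟨i1, i2, -, -, c, i7, i8, i9⟩ := inv hH
  constructor
  · obtain ⟨x, hx, hw⟩ := check5 (stB H % 6) (Nat.mod_lt _ (by norm_num))
    obtain ⟨o, c', ho, hc'⟩ := i9 x hx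
    refine ⟨o, c', ho, ?_⟩
    rw [hw] at hc'
    have h1 : 0 ≤ dist o (e x) := dist_nonneg
    have h2 : (0 : ℝ) ≤ pA (stB H) := Nat.cast_nonneg _
    push_cast at hc'
    linarith
  · have h2 : (0 : ℝ) ≤ pB (stB H) := Nat.cast_nonneg _
    linarith

end Base

lemma exists_far (P : Finset (ℝ × ℝ)) (D L₀ : ℝ) (hD : ∀ p ∈ P, ∀ q ∈ P, dist p q ≤ D)
    (hP : P.Nonempty) : ∃ (z : ℝ × ℝ) (L : ℝ), L₀ ≤ L ∧ z ∉ P ∧ (∀ p ∈ P, L ≤ dist z p) ∧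
      ∀ p ∈ P, dist z p ≤ L + 2 * D := by
  obtain ⟨p₀, hp₀⟩ := hP
  have hD0 : 0 ≤ D := dist_nonneg.trans (hD p₀ hp₀ p₀ hp₀)
  set R : ℝ := |L₀| + D + 1 with hR
  have hR0 : 0 < R := by positivity
  set z : ℝ × ℝ := (p₀.1 + R, p₀.2) with hz
  have h1 : dist z p₀ = R := by
    rw [Prod.dist_eq, Real.dist_eq, Real.dist_eq]
    simp [hz, abs_of_pos hR0, hR0.le]
  refine ⟨z, R - D, ?_, ?_, ?_, ?_⟩
  · have := le_abs_self L₀
    linarith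
  · intro hzP
    have := hD z hzP p₀ hp₀
    rw [h1] at this
    have := abs_nonneg L₀
    linarith
  · intro p hp
    have h2 := dist_triangle z p p₀
    have h3 := hD p hp p₀ hp₀
    linarith
  · intro p hp
    have h2 := dist_triangle z p₀ p
    have h3 := hD p₀ hp₀ p hp
    linarith

lemma exists_diam (P : Finset (ℝ × ℝ)) : ∃ D : ℝ, ∀ p ∈ P, ∀ q ∈ P, dist p q ≤ D := by
  refine ⟨∑ x ∈ P ×ˢ P, dist x.1 x.2, fun p hp q hq => ?_⟩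
  exact single_le_sum (f := fun x : (ℝ × ℝ) × (ℝ × ℝ) => dist x.1 x.2)
    (fun _ _ => dist_nonneg) (mem_product.2 ⟨hp, hq⟩ : (p, q) ∈ P ×ˢ P)

theorem exists_adv (n : ℕ) : ∀ C : ℝ, 0 ≤ C → C < n + 3 →
    ∃ P : Finset (ℝ × ℝ), P.card = n + 4 ∧ Adv P C := by
  induction n with
  | zero =>
    intro C hC0 hC
    exact ⟨Base.P, Base.card_P, Base.adv.mono (by simpa using hC.le)⟩
  | succ n ih =>
    intro C hC0 hC
    push_cast at hC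
    -- the smaller ratio
    obtain ⟨C₀, ε, hC₀, hC₀', hε, hε1, hsum⟩ : ∃ C₀ ε : ℝ, 0 ≤ C₀ ∧ C₀ < n + 3 ∧ 0 < ε ∧ ε ≤ 1 ∧
        C ≤ C₀ + 1 - ε := by
      by_cases h1 : C ≤ 1
      · refine ⟨1, 1, by norm_num, ?_, one_pos, le_rfl, by linarith⟩
        have : (0 : ℝ) ≤ n := Nat.cast_nonneg n
        linarith
      · push Not at h1
        refine ⟨(C - 1 + (n + 3)) / 2, min 1 ((n + 4 - C) / 2), ?_, ?_, ?_, ?_, ?_⟩
        · have : (0 : ℝ) ≤ n := Nat.cast_nonneg n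
          linarith
        · linarith
        · exact lt_min one_pos (by linarith)
        · exact min_le_left _ _
        · have := min_le_right (1 : ℝ) ((n + 4 - C) / 2)
          linarith
    obtain ⟨P, hcard, hP⟩ := ih C₀ hC₀ hC₀'
    obtain ⟨D, hD⟩ := exists_diam P
    have hne : P.Nonempty := card_pos.1 (by omega)
    obtain ⟨p₀, hp₀⟩ := hne
    have hD0 : 0 ≤ D := dist_nonneg.trans (hD p₀ hp₀ p₀ hp₀)
    obtain ⟨L₀, hL₀⟩ := hP.far' (D := 2 * D) hC₀ (by omega) hε hε1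
      (fun p hp q hq => (hD p hp q hq).trans (by linarith))
    obtain ⟨z, L, h1, h2, h3, h4⟩ := exists_far P D L₀ hD ⟨p₀, hp₀⟩
    obtain ⟨P', hP1, hP2⟩ := hL₀ z L h1 h2 h3 h4
    exact ⟨P', by omega, hP2.mono hsum⟩

end Pool.Agent.X185.KS
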