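import Pool.Agent.X185.KS.Work

/-!
# The delayed k-server problem

Definitions of the delayed `k`-server problem and the simulation of the work function algorithm.
-/

set_option autoImplicit false
set_option linter.unusedSimpArgs false
set_option linter.unusedSectionVars false

namespace Pool.Agent.X185.KS

open Finset Function

/-- A state of the delayed `k`-server problem: the positions of the `k` servers and the label of
the frozen server. -/
abbrev State (M : Type*) (k : ℕ) := (Fin k → M) × Fin k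

/-- The state `y` may follow the state `x` when the point `r` is requested: the server that is
frozen in `x` does not move, and the server that is frozen in `y` (the one that served) stands
at `r`. -/
def Step {M : Type*} {k : ℕ} (x : State M k) (r : M) (y : State M k) : Prop :=
  y.1 x.2 = x.1 x.2 ∧ y.1 y.2 = r

/-- The cost of going from state `x` to state `y`: the total distance moved. -/
noncomputable def moveCost {M : Type*} [MetricSpace M] {k : ℕ} (x y : State M k) : ℝ :=
  ∑ i, dist (x.1 i) (y.1 i)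

/-- `σ` is a schedule that serves the request sequence `ρ` from the initial state `x₀`:
`σ t` is the state after the first `t` requests. -/
def IsSchedule {M : Type*} {k : ℕ} (x₀ : State M k) (ρ : List M) (σ : ℕ → State M k) : Prop :=
  σ 0 = x₀ ∧ ∀ (t : ℕ) (ht : t < ρ.length), Step (σ t) ρ[t] (σ (t + 1))

/-- The cost of the first `n` steps of a schedule. -/
noncomputable def schedCost {M : Type*} [MetricSpace M] {k : ℕ} (σ : ℕ → State M k) (n : ℕ) : ℝ :=
  ∑ t ∈ range n, moveCost (σ t) (σ (t + 1))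

/-- The offline optimum: the infimum of the costs of the schedules that serve `ρ` from `x₀`. -/
noncomputable def opt {M : Type*} [MetricSpace M] {k : ℕ} (x₀ : State M k) (ρ : List M) : ℝ :=
  sInf {c : ℝ | ∃ σ : ℕ → State M k, IsSchedule x₀ ρ σ ∧ c = schedCost σ ρ.length}

/-- A deterministic online algorithm with initial state `x₀`: `alg ρ` is the state after the
request sequence `ρ`, so it depends on the requests so far only, and each step is legal. -/
def IsOnline {M : Type*} {k : ℕ} (x₀ : State M k) (alg : List M → State M k) : Prop :=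
  alg [] = x₀ ∧ ∀ (ρ : List M) (r : M), Step (alg ρ) r (alg (ρ ++ [r]))

/-- The cost of an online algorithm on the request sequence `ρ`. -/
noncomputable def algCost {M : Type*} [MetricSpace M] {k : ℕ} (alg : List M → State M k)
    (ρ : List M) : ℝ :=
  schedCost (fun t => alg (ρ.take t)) ρ.length

/-- There is a deterministic online algorithm with initial state `x₀` that is
`C`-competitive. -/
def Competitive {M : Type*} [MetricSpace M] {k : ℕ} (C : ℝ) (x₀ : State M k) : Prop :=
  ∃ alg : List M → State M k, IsOnline x₀ alg ∧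
    ∃ K : ℝ, ∀ ρ : List M, algCost alg ρ ≤ C * opt x₀ ρ + K

/-- alternating requests -/
def alt {M : Type*} : ℕ → M → M → List M
  | 0, _, _ => []
  | m + 1, x, y => x :: alt m y x

section
variable {M : Type*} [MetricSpace M] {k : ℕ} [NeZero k]

lemma alt_serve {X Z : Fin k → M} {ρ : List M} {c : ℝ} (hs : Serve X ρ c Z) :
    ∀ (m : ℕ) (x y : M), (∃ i, X i = x) → (∃ i, X i = y) → Serve X (alt m x y ++ ρ) c Z
  | 0, _, _, _, _ => hs
  | m + 1, x, y, ⟨i, hi⟩, hy => Serve.req i hi (alt_serve hs m y x hy ⟨i, hi⟩)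

lemma alt_cost {F : Set M} {δ : ℝ} (hδ : ∀ x ∈ F, ∀ y ∈ F, x ≠ y → δ ≤ dist x y) :
    ∀ (m : ℕ) (st : WS M k) (x y : M), x ∈ F → y ∈ F → (∀ i, st.2 i ∈ F) → (∃ i, st.2 i = y) →
      (∀ m', ¬ ((∃ i, (run st (alt m' x y)).2 i = x) ∧ (∃ i, (run st (alt m' x y)).2 i = y))) →
      m * δ ≤ wcost st (alt m x y)
  | 0, st, x, y, _, _, _, _, _ => by simp [alt, wcost]
  | m + 1, st, x, y, hx, hy, hF, hc, hno => by
    have h0 := hno 0
    have h1 : st.2 (idx st x) ≠ x := by
      intro h
      exact h0 ⟨⟨_, h⟩, hc⟩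
    have h2 : δ ≤ dist (st.2 (idx st x)) x := hδ _ (hF _) _ hx h1
    have h3 := alt_cost hδ m (wstep st x) y x hy hx (by
      intro i
      change update st.2 (idx st x) x i ∈ F
      by_cases hi : i = idx st x
      · subst hi
        rwa [update_self]
      · rw [update_of_ne hi]
        exact hF i) ⟨idx st x, update_self ..⟩ (by
      intro m' hm'
      exact hno (m' + 1) ⟨hm'.2, hm'.1⟩)
    change _ ≤ dist (st.2 (idx st x)) x + wcost (wstep st x) (alt m y x)
    push_cast
    linarith

lemma exists_sep (F : Set M) (hF : F.Finite) : ∃ δ > 0, ∀ x ∈ F, ∀ y ∈ F, x ≠ y → δ ≤ dist x y := by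
  classical
  have hfin : (F ×ˢ F).Finite := hF.prod hF
  have hfin2 : ((fun p : M × M => dist p.1 p.2) '' {p ∈ F ×ˢ F | p.1 ≠ p.2}).Finite :=
    (hfin.subset (fun p hp => hp.1)).image _
  set S := (fun p : M × M => dist p.1 p.2) '' {p ∈ F ×ˢ F | p.1 ≠ p.2} with hS
  by_cases hne : S.Nonempty
  · obtain ⟨a, ha, hmin⟩ := Set.exists_min_image S id hfin2 hne
    obtain ⟨p, hp, rfl⟩ := ha
    refine ⟨dist p.1 p.2, dist_pos.2 hp.2, fun x hx y hy hxy => ?_⟩
    exact hmin (dist x y) ⟨(x, y), ⟨⟨hx, hy⟩, hxy⟩, rfl⟩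
  · refine ⟨1, one_pos, fun x hx y hy hxy => ?_⟩
    exact absurd ⟨dist x y, (x, y), ⟨⟨hx, hy⟩, hxy⟩, rfl⟩ hne

lemma exists_alt (hk : 2 ≤ k) {st : WS M k} (h : Good st.1) (hC : ∃ C : ℝ, ∀ p, C ≤ Psi st.1 p)
    (r q : M) (hq : ∃ i, st.2 i = q) :
    ∃ m, (∃ i, (run st (alt m r q)).2 i = r) ∧ (∃ i, (run st (alt m r q)).2 i = q) := by
  by_contra hcon
  have hno : ∀ m, ¬ ((∃ i, (run st (alt m r q)).2 i = r) ∧
      (∃ i, (run st (alt m r q)).2 i = q)) := fun m hm => hcon ⟨m, hm⟩
  obtain ⟨C, hC⟩ := hC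
  have : Nonempty M := ⟨r⟩
  obtain ⟨δ, hδ, hsep⟩ := exists_sep (Set.range st.2 ∪ {r, q})
    ((Set.finite_range st.2).union (by simp))
  set X : Fin k → M := fun i => if i = 0 then r else q with hX
  have hX0 : ∃ i, X i = r := ⟨0, by simp [hX]⟩
  have hX1 : ∃ i, X i = q := by
    refine ⟨⟨1, hk⟩, ?_⟩
    have : (⟨1, hk⟩ : Fin k) ≠ 0 := by
      intro h
      have := congrArg Fin.val h
      simp at this
    simp [hX, this]
  obtain ⟨m, hm⟩ := exists_nat_gt (((2 * k - 1) * (st.1 X + 0) - C + st.1 st.2) / δ)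
  rw [div_lt_iff₀ hδ] at hm
  have h1 := alt_cost hsep m st r q (by simp) (by simp) (fun i => Or.inl ⟨i, rfl⟩) hq hno
  have h2 := wcost_le h hC (alt m r q) X
  have h3 : (run st (alt m r q)).1 X ≤ st.1 X + 0 := by
    have := alt_serve (Serve.nil X) m r q hX0 hX1
    rw [List.append_nil] at this
    exact run_le this st h
  have hk1 : (1 : ℝ) ≤ k := by exact_mod_cast (by omega : 1 ≤ k)
  have h4 : (2 * (k : ℝ) - 1) * (run st (alt m r q)).1 X ≤ (2 * k - 1) * (st.1 X + 0) :=
    mul_le_mul_of_nonneg_left h3 (by linarith)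
  linarith

lemma swap_le {c F : Fin k → M} {s j : Fin k} (h : c s = F j) :
    D c (F ∘ Equiv.swap s j) ≤ D c F := by
  by_cases hsj : s = j
  · subst hsj
    simp
  · unfold D
    rw [← add_sum_erase univ (fun i => dist (c i) (F i)) (mem_univ s),
      ← add_sum_erase univ (fun i => dist (c i) ((F ∘ Equiv.swap s j) i)) (mem_univ s),
      ← add_sum_erase (univ.erase s) (fun i => dist (c i) (F i))
        (mem_erase.2 ⟨fun h => hsj h.symm, mem_univ j⟩),
      ← add_sum_erase (univ.erase s) (fun i => dist (c i) ((F ∘ Equiv.swap s j) i))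
        (mem_erase.2 ⟨fun h => hsj h.symm, mem_univ j⟩)]
    have h1 : ∑ i ∈ (univ.erase s).erase j, dist (c i) ((F ∘ Equiv.swap s j) i) =
        ∑ i ∈ (univ.erase s).erase j, dist (c i) (F i) := by
      refine sum_congr rfl fun i hi => ?_
      rw [mem_erase, mem_erase] at hi
      rw [Function.comp_apply, Equiv.swap_apply_of_ne_of_ne hi.2.1 hi.1]
    rw [h1]
    simp only [Function.comp_apply, Equiv.swap_apply_left, Equiv.swap_apply_right]
    have h2 := dist_triangle (c j) (F j) (F s)
    rw [← h, dist_self]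
    rw [← h] at h2
    linarith

/-- the internal state of the algorithm -/
structure DS (M : Type*) [MetricSpace M] (k : ℕ) [NeZero k] where
  /-- state of the work function algorithm -/
  w : WS M k
  /-- the labelled configuration -/
  conf : Fin k → M
  /-- the frozen server -/
  s : Fin k
  perm : ∃ π : Equiv.Perm (Fin k), conf = w.2 ∘ π
  good : Good w.1
  bd : ∃ C : ℝ, ∀ p, C ≤ Psi w.1 p

lemma exists_next (hk : 2 ≤ k) (a : DS M k) (r : M) :
    ∃ (m : ℕ) (c : Fin k → M) (s : Fin k), c a.s = a.conf a.s ∧ c s = r ∧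
      D a.conf c ≤ wcost a.w (alt m r (a.conf a.s)) ∧
      ∃ π : Equiv.Perm (Fin k), c = (run a.w (alt m r (a.conf a.s))).2 ∘ π := by
  obtain ⟨π, hπ⟩ := a.perm
  obtain ⟨m, ⟨i, hi⟩, ⟨j, hj⟩⟩ := exists_alt hk a.good a.bd r (a.conf a.s)
    ⟨π a.s, by rw [hπ]; rfl⟩
  set A := (run a.w (alt m r (a.conf a.s))).2 with hA
  have h0 : a.conf a.s = (A ∘ π) (π⁻¹ j) := by simp [hj]
  refine ⟨m, (A ∘ π) ∘ Equiv.swap a.s (π⁻¹ j), Equiv.swap a.s (π⁻¹ j) (π⁻¹ i), ?_, ?_, ?_,
    ⟨π * Equiv.swap a.s (π⁻¹ j), ?_⟩⟩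
  · simp [hj]
  · simp [hi]
  · refine (swap_le h0).trans ?_
    have h1 := D_le_wcost a.w (alt m r (a.conf a.s))
    rw [← D_comp _ _ π, ← hπ] at h1
    exact h1
  · rfl

/-- the number of requests in the block -/
noncomputable def num (hk : 2 ≤ k) (a : DS M k) (r : M) : ℕ := (exists_next hk a r).choose

/-- the block -/
noncomputable def block (hk : 2 ≤ k) (a : DS M k) (r : M) : List M :=
  alt (num hk a r) r (a.conf a.s)

/-- the next state of the algorithm -/
noncomputable def next (hk : 2 ≤ k) (a : DS M k) (r : M) : DS M k where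
  w := run a.w (block hk a r)
  conf := (exists_next hk a r).choose_spec.choose
  s := (exists_next hk a r).choose_spec.choose_spec.choose
  perm := (exists_next hk a r).choose_spec.choose_spec.choose_spec.2.2.2
  good := run_good a.good _
  bd := by
    obtain ⟨C, hC⟩ := a.bd
    exact ⟨C, fun p => (hC p).trans (psi_mono (run_mono a.good _) p)⟩

/-- the visible part of the internal state -/
def DS.st (a : DS M k) : State M k := (a.conf, a.s)

lemma next_step (hk : 2 ≤ k) (a : DS M k) (r : M) : Step a.st r (next hk a r).st :=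
  ⟨(exists_next hk a r).choose_spec.choose_spec.choose_spec.1,
    (exists_next hk a r).choose_spec.choose_spec.choose_spec.2.1⟩

lemma next_cost (hk : 2 ≤ k) (a : DS M k) (r : M) :
    moveCost a.st (next hk a r).st ≤ wcost a.w (block hk a r) :=
  (exists_next hk a r).choose_spec.choose_spec.choose_spec.2.2.1

/-- all the requests to the simulated algorithm -/
noncomputable def expand (hk : 2 ≤ k) (a : DS M k) : List M → List M
  | [] => []
  | r :: ρ => block hk a r ++ expand hk (next hk a r) ρ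

/-- the algorithm -/
noncomputable def algo (hk : 2 ≤ k) (a : DS M k) (ρ : List M) : State M k :=
  (ρ.foldl (next hk) a).st

lemma algo_online (hk : 2 ≤ k) (a : DS M k) : IsOnline a.st (algo hk a) := by
  refine ⟨rfl, fun ρ r => ?_⟩
  unfold algo
  rw [List.foldl_append]
  exact next_step hk _ r

lemma algo_cost (hk : 2 ≤ k) (a : DS M k) (ρ : List M) :
    algCost (algo hk a) ρ ≤ wcost a.w (expand hk a ρ) := by
  induction ρ generalizing a with
  | nil => simp [algCost, schedCost, expand, wcost]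
  | cons r ρ ih =>
    have h1 := ih (next hk a r)
    have h2 := next_cost hk a r
    unfold algCost schedCost at h1 ⊢
    rw [List.length_cons, sum_range_succ']
    change _ ≤ wcost a.w (block hk a r ++ expand hk (next hk a r) ρ)
    rw [wcost_append]
    change ∑ t ∈ range ρ.length, moveCost (algo hk (next hk a r) (ρ.take t))
      (algo hk (next hk a r) (ρ.take (t + 1))) + moveCost a.st (next hk a r).st ≤
      _ + wcost (next hk a r).w _
    linarith

lemma sched_serve (hk : 2 ≤ k) (a : DS M k) (ρ : List M) (σ : ℕ → State M k)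
    (h0 : a.conf a.s = (σ 0).1 (σ 0).2)
    (hσ : ∀ (t : ℕ) (ht : t < ρ.length), Step (σ t) ρ[t] (σ (t + 1))) :
    Serve (σ 0).1 (expand hk a ρ) (schedCost σ ρ.length) (σ ρ.length).1 := by
  induction ρ generalizing a σ with
  | nil =>
    have : schedCost σ ([] : List M).length = 0 := by simp [schedCost]
    rw [this]
    exact Serve.nil _
  | cons r ρ ih =>
    have hs := hσ 0 (by simp)
    have h1 := ih (next hk a r) (fun t => σ (t + 1)) (by
      have e1 : (next hk a r).conf (next hk a r).s = r := (next_step hk a r).2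
      rw [e1]
      exact hs.2.symm) (by
      intro t ht
      exact hσ (t + 1) (by simpa using ht))
    have h2 : schedCost σ (r :: ρ).length =
        D (σ 0).1 (σ 1).1 + schedCost (fun t => σ (t + 1)) ρ.length := by
      unfold schedCost
      rw [List.length_cons, sum_range_succ', add_comm]
      rfl
    rw [h2]
    refine Serve.move (Y := (σ 1).1) ?_
    exact alt_serve h1 _ _ _ ⟨(σ 1).2, hs.2⟩ ⟨(σ 0).2, by rw [h0]; exact hs.1⟩

/-- the initial state of the algorithm -/
noncomputable def init (x₀ : State M k) : DS M k where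
  w := (w0 x₀.1, x₀.1)
  conf := x₀.1
  s := x₀.2
  perm := ⟨1, rfl⟩
  good := w0_good _
  bd := ⟨_, w0_psi x₀.1⟩

lemma algo_le (hk : 2 ≤ k) (x₀ : State M k) (ρ : List M) (σ : ℕ → State M k)
    (hσ : IsSchedule x₀ ρ σ) :
    algCost (algo hk (init x₀)) ρ ≤ (2 * k - 1) * schedCost σ ρ.length +
      ∑ i, ∑ j, dist (x₀.1 i) (x₀.1 j) := by
  have : Nonempty M := ⟨x₀.1 0⟩
  have h1 := algo_cost hk (init x₀) ρ
  have h2 := sched_serve hk (init x₀) ρ σ (by rw [hσ.1]; rfl) hσ.2
  have h3 := wcost_le (init x₀).good (w0_psi x₀.1) (expand hk (init x₀) ρ) (σ ρ.length).1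
  have h4 := run_le h2 (init x₀).w (init x₀).good
  rw [hσ.1] at h4
  have h5 : (init x₀).w.1 x₀.1 = 0 := w0_self x₀.1
  have h6 : (init x₀).w.1 (init x₀).w.2 = 0 := w0_self x₀.1
  rw [h5] at h4
  rw [h6] at h3
  have hk1 : (1 : ℝ) ≤ k := by exact_mod_cast (by omega : 1 ≤ k)
  have h7 : (2 * (k : ℝ) - 1) * (run (init x₀).w (expand hk (init x₀) ρ)).1 (σ ρ.length).1 ≤
      (2 * k - 1) * (0 + schedCost σ ρ.length) := mul_le_mul_of_nonneg_left h4 (by linarith)
  linarith

end

/-- an online algorithm gives schedules -/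
lemma online_sched {M : Type*} {k : ℕ} {x₀ : State M k} {alg : List M → State M k}
    (h : IsOnline x₀ alg) (ρ : List M) : IsSchedule x₀ ρ (fun t => alg (ρ.take t)) := by
  refine ⟨by simpa using h.1, fun t ht => ?_⟩
  have h1 := h.2 (ρ.take t) ρ[t]
  have h2 : ρ.take t ++ [ρ[t]] = ρ.take (t + 1) := by simp
  rw [h2] at h1
  exact h1

theorem main {M : Type*} [MetricSpace M] {k : ℕ} (hk : 2 ≤ k) (x₀ : State M k) :
    Competitive (2 * k - 1) x₀ := by
  have : NeZero k := ⟨by omega⟩
  refine ⟨algo hk (init x₀), algo_online hk (init x₀),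
    ∑ i, ∑ j, dist (x₀.1 i) (x₀.1 j), fun ρ => ?_⟩
  have hk1 : (1 : ℝ) ≤ k := by exact_mod_cast (by omega : 1 ≤ k)
  have hpos : (0 : ℝ) < 2 * k - 1 := by linarith
  rw [← sub_le_iff_le_add, ← div_le_iff₀' hpos]
  refine le_csInf ⟨_, _, online_sched (algo_online hk (init x₀)) ρ, rfl⟩ ?_
  rintro c ⟨σ, hσ, rfl⟩
  rw [div_le_iff₀' hpos, sub_le_iff_le_add]
  exact algo_le hk x₀ ρ σ hσ

end Pool.Agent.X185.KS
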