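import Mathlib

/-!
# The hole game of the delayed k-server problem on k + 1 points, and far points
-/

set_option autoImplicit false
set_option linter.unusedSectionVars false
set_option linter.unusedVariables false

namespace Pool.Agent.X185.KS

open Finset
open scoped Classical

section game
variable {M : Type*} [MetricSpace M]

/-- legal histories of holes (latest first) against the requests `S` -/
inductive Legal (P : Finset M) (S : List M → M) : List M → Prop
  | one {h : M} : h ∈ P → h ≠ S [] → Legal P S [h]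
  | cons {h g : M} {H : List M} : Legal P S (g :: H) → h ∈ P → h ≠ S (g :: H) → h ≠ S H →
      Legal P S (h :: g :: H)

/-- the cost of a history of holes -/
noncomputable def gcost : List M → ℝ
  | [] => 0
  | [_] => 0
  | h :: g :: H => dist g h + gcost (g :: H)

/-- offline holes -/
inductive Off (P : Finset M) (S : List M → M) : List M → M → ℝ → Prop
  | one {h o : M} : o ∈ P → o ≠ S [] → Off P S [h] o 0
  | cons {h g : M} {H : List M} {o o' : M} {c : ℝ} : Off P S (g :: H) o c → o' ∈ P →
      o' ≠ S (g :: H) → o' ≠ S H → Off P S (h :: g :: H) o' (c + dist o o')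

lemma gcost_nonneg : ∀ H : List M, 0 ≤ gcost H
  | [] => le_rfl
  | [_] => le_rfl
  | _ :: g :: H => add_nonneg dist_nonneg (gcost_nonneg (g :: H))

lemma Off.nonneg {P : Finset M} {S : List M → M} {H : List M} {o : M} {c : ℝ}
    (h : Off P S H o c) : 0 ≤ c := by
  induction h with
  | one _ _ => exact le_rfl
  | cons _ _ _ _ ih => exact add_nonneg ih dist_nonneg

lemma Off.mem {P : Finset M} {S : List M → M} {H : List M} {o : M} {c : ℝ}
    (h : Off P S H o c) : o ∈ P := by
  cases h with
  | one h _ => exact h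
  | cons _ h _ _ => exact h

lemma Legal.mem {P : Finset M} {S : List M → M} {g : M} {H : List M} (h : Legal P S (g :: H)) :
    g ∈ P := by
  cases h with
  | one h _ => exact h
  | cons _ h _ _ => exact h

/-- the adversary forces the ratio `C` on the points `P` -/
def Adv (P : Finset M) (C : ℝ) : Prop :=
  ∃ (S : List M → M) (K η : ℝ), 0 < η ∧ (∀ H, S H ∈ P) ∧ ∀ H, Legal P S H →
    (∃ o c, Off P S H o c ∧ C * c ≤ gcost H + K) ∧ η * H.length ≤ gcost H + K

lemma Adv.mono {P : Finset M} {C C' : ℝ} (hC : C' ≤ C) (h : Adv P C) : Adv P C' := by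
  obtain ⟨S, K, η, h1, h2, h3⟩ := h
  refine ⟨S, K, η, h1, h2, fun H hH => ?_⟩
  obtain ⟨⟨o, c, ho, hc⟩, h4⟩ := h3 H hH
  exact ⟨⟨o, c, ho, (mul_le_mul_of_nonneg_right hC ho.nonneg).trans hc⟩, h4⟩

/-- the phase of the history -/
noncomputable def st (z : M) : List M → Option (List M)
  | [] => none
  | h :: H => match st z H with
    | none => some []
    | some G => if h = z then none else some (h :: G)

/-- the requests with the far point `z` -/
noncomputable def farS (z : M) (S : List M → M) (H : List M) : M :=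
  match st z H with
  | none => z
  | some G => S G

lemma st_none {z h : M} {H : List M} (h1 : st z H = none) : st z (h :: H) = some [] := by
  simp [st, h1]

lemma st_some {z h : M} {H G : List M} (h1 : st z H = some G) (h2 : h ≠ z) :
    st z (h :: H) = some (h :: G) := by
  simp [st, h1, h2]

lemma st_z {z : M} {H G : List M} (h1 : st z H = some G) : st z (z :: H) = none := by
  simp [st, h1]

lemma farS_none {z : M} {S : List M → M} {H : List M} (h1 : st z H = none) :
    farS z S H = z := by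
  simp [farS, h1]

lemma farS_some {z : M} {S : List M → M} {H G : List M} (h1 : st z H = some G) :
    farS z S H = S G := by
  simp [farS, h1]

/-- the invariant: just after a return -/
def Mode0 (P : Finset M) (z : M) (S : List M → M) (H : List M) (b B n : ℝ) : Prop :=
  st z H = some [] ∧ farS z S H.tail = z ∧ B ≤ gcost H ∧ n = H.length ∧
    ∃ q ∈ P, ∃ c ≤ b, Off (insert z P) (farS z S) H q c

/-- the invariant: in a phase -/
def Mode1 (P : Finset M) (z : M) (S : List M → M) (D L : ℝ) (H : List M) (b B n : ℝ) : Prop :=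
  ∃ g G, st z H = some (g :: G) ∧ H.head? = some g ∧ farS z S H.tail = S G ∧
    Legal P S (g :: G) ∧ B + gcost (g :: G) ≤ gcost H ∧ (H.length : ℝ) = n + (g :: G).length ∧
    (∀ o c, Off P S (g :: G) o c → ∃ c' ≤ b + D + c, Off (insert z P) (farS z S) H o c') ∧
    ∃ o c', Off (insert z P) (farS z S) H o c' ∧ c' + dist o z ≤ b + L + 2 * D

/-- the invariant: the hole is at `z` -/
def Mode2 (P : Finset M) (z : M) (S : List M → M) (D L : ℝ) (H : List M) (b B n : ℝ) : Prop :=
  ∃ G, st z H = none ∧ H.head? = some z ∧ farS z S H.tail = S G ∧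
    Legal P S G ∧ B + gcost G + L ≤ gcost H ∧ (H.length : ℝ) = n + G.length + 1 ∧
    (∀ o c, Off P S G o c → ∃ o' ∈ P, o' ≠ S G ∧ ∃ c' ≤ b + 2 * D + c,
      Off (insert z P) (farS z S) H o' c') ∧
    ∃ c', Off (insert z P) (farS z S) H z c' ∧ c' ≤ b + L + 2 * D

lemma exists_avoid {P : Finset M} (hP : 3 ≤ P.card) (x y : M) : ∃ o ∈ P, o ≠ x ∧ o ≠ y := by
  have h1 : ({x, y} : Finset M).card < P.card := lt_of_le_of_lt card_le_two (by omega)
  obtain ⟨o, ho, ho'⟩ := exists_mem_notMem_of_card_lt_card h1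
  simp only [mem_insert, mem_singleton, not_or] at ho'
  exact ⟨o, ho, ho'.1, ho'.2⟩

lemma inv {P : Finset M} {C ε D L K η : ℝ} (hC : 0 ≤ C) (hP : 3 ≤ P.card) {S : List M → M}
    (hη : 0 < η) (hS : ∀ H, S H ∈ P)
    (hG : ∀ H, Legal P S H →
      (∃ o c, Off P S H o c ∧ C * c ≤ gcost H + K) ∧ η * H.length ≤ gcost H + K)
    (hε : 0 < ε) (hε1 : ε ≤ 1) {z : M} (hz : z ∉ P) (hD : ∀ p ∈ P, ∀ q ∈ P, dist p q ≤ D)
    (hz1 : ∀ p ∈ P, L ≤ dist z p) (hz2 : ∀ p ∈ P, dist z p ≤ L + D) (hL : 0 ≤ L)
    (hL1 : K + 3 * D * (C + 1) ≤ 2 * ε * L) (hL2 : K + 2 * η ≤ 2 * L)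
    {H : List M} (hH : Legal (insert z P) (farS z S) H) :
    ∃ b B n : ℝ, (C + 1 - ε) * b ≤ B + η ∧ η * n ≤ B + η ∧
      (Mode0 P z S H b B n ∨ Mode1 P z S D L H b B n ∨ Mode2 P z S D L H b B n) := by
  have hD0 : 0 ≤ D := by
    obtain ⟨p, hp⟩ : P.Nonempty := card_pos.1 (by omega)
    exact dist_nonneg.trans (hD p hp p hp)
  have hC' : 0 ≤ C + 1 - ε := by linarith
  have hzS : ∀ G, z ≠ S G := fun G h => hz (h ▸ hS G)
  have hne : ∀ p ∈ P, p ≠ z := fun p hp h => hz (h ▸ hp)
  induction hH with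
  | @one h h1 h2 =>
    have h3 : farS z S [] = z := rfl
    obtain ⟨q, hq⟩ : P.Nonempty := card_pos.1 (by omega)
    refine ⟨0, 0, 1, by linarith, by linarith, Or.inl ⟨st_none rfl, h3, ?_, by simp, q, hq, 0,
      le_rfl, Off.one (mem_insert_of_mem hq) ?_⟩⟩
    · exact le_rfl
    · rw [h3]
      exact hne q hq
  | @cons h g H hleg h1 h2 h3 ih =>
    obtain ⟨b, B, n, hb, hn, hm⟩ := ih
    rcases hm with hm | hm | hm
    · -- mode 0
      obtain ⟨m1, m2, m3, m4, q, hq, c, hc, hoff⟩ := hm
      have e1 : farS z S (g :: H) = S [] := farS_some m1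
      have e2 : farS z S H = z := m2
      rw [e1] at h2
      rw [e2] at h3
      have hhP : h ∈ P := (mem_insert.1 h1).resolve_left h3
      refine ⟨b, B, n, hb, hn, Or.inr (Or.inl ⟨h, [], st_some m1 h3, rfl, e1,
        Legal.one hhP h2, ?_, ?_, ?_, ?_⟩)⟩
      · have : (0 : ℝ) ≤ dist g h := dist_nonneg
        change B + 0 ≤ dist g h + gcost (g :: H)
        linarith
      · rw [m4]
        simp
      · intro o c₁ ho
        cases ho with
        | one ho1 ho2 =>
          refine ⟨c + dist q o, ?_, Off.cons hoff (mem_insert_of_mem ho1) (by rwa [e1]) ?_⟩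
          · have := hD q hq o ho1
            linarith
          · rw [e2]
            exact hne o ho1
      · obtain ⟨o, ho1, ho2, -⟩ := exists_avoid hP (S []) (S [])
        refine ⟨o, c + dist q o, Off.cons hoff (mem_insert_of_mem ho1) (by rwa [e1]) ?_, ?_⟩
        · rw [e2]
          exact hne o ho1
        · have h4 := hD q hq o ho1
          have h5 := hz2 o ho1
          rw [dist_comm] at h5
          linarith
    · -- mode 1
      obtain ⟨g', G, m1, m2, m3, m4, m5, m6, m7, o₁, c₁, m8, m9⟩ := hm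
      simp only [List.head?_cons, Option.some.injEq] at m2
      subst m2
      have e1 : farS z S (g :: H) = S (g :: G) := farS_some m1
      have e2 : farS z S H = S G := m3
      rw [e1] at h2
      rw [e2] at h3
      by_cases hhz : h = z
      · subst hhz
        refine ⟨b, B, n, hb, hn, Or.inr (Or.inr ⟨g :: G, st_z m1, rfl, e1, m4, ?_, ?_, ?_, ?_⟩)⟩
        · have := hz1 g m4.mem
          rw [dist_comm] at this
          change B + gcost (g :: G) + L ≤ dist g h + gcost (g :: H)
          linarith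
        · rw [List.length_cons, Nat.cast_add, m6]
          simp
        · intro o c ho
          obtain ⟨c', hc', hoff⟩ := m7 o c ho
          obtain ⟨o', ho1, ho2, ho3⟩ := exists_avoid hP (S (g :: G)) (S G)
          refine ⟨o', ho1, ho2, c' + dist o o', ?_, Off.cons hoff (mem_insert_of_mem ho1)
            (by rwa [e1]) (by rwa [e2])⟩
          have := hD o ho.mem o' ho1
          linarith
        · exact ⟨c₁ + dist o₁ h, Off.cons m8 (mem_insert_self _ _) (by rw [e1]; exact hzS _)
            (by rw [e2]; exact hzS _), m9⟩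
      · have hhP : h ∈ P := (mem_insert.1 h1).resolve_left hhz
        refine ⟨b, B, n, hb, hn, Or.inr (Or.inl ⟨h, g :: G, st_some m1 hhz, rfl, e1,
          Legal.cons m4 hhP h2 h3, ?_, ?_, ?_, ?_⟩)⟩
        · change B + (dist g h + gcost (g :: G)) ≤ dist g h + gcost (g :: H)
          linarith
        · rw [List.length_cons, Nat.cast_add, m6]
          simp
          ring
        · intro o c ho
          cases ho with
          | @cons _ _ _ o₂ _ c₂ ho1 ho2 ho3 ho4 =>
            obtain ⟨c', hc', hoff⟩ := m7 o₂ c₂ ho1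
            refine ⟨c' + dist o₂ o, by linarith, Off.cons hoff (mem_insert_of_mem ho2)
              (by rwa [e1]) (by rwa [e2])⟩
        · refine ⟨z, c₁ + dist o₁ z, Off.cons m8 (mem_insert_self _ _)
            (by rw [e1]; exact hzS _) (by rw [e2]; exact hzS _), ?_⟩
          rw [dist_self]
          linarith
    · -- mode 2
      obtain ⟨G, m1, m2, m3, m4, m5, m6, m7, c₁, m8, m9⟩ := hm
      simp only [List.head?_cons, Option.some.injEq] at m2
      subst m2
      have e1 : farS g S (g :: H) = g := farS_none m1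
      have e2 : farS g S H = S G := m3
      rw [e1] at h2
      rw [e2] at h3
      have hhP : h ∈ P := (mem_insert.1 h1).resolve_left h2
      obtain ⟨⟨o, c, ho, hoc⟩, hlen⟩ := hG G m4
      obtain ⟨o', ho1, ho2, c', hc', hoff⟩ := m7 o c ho
      obtain ⟨q, hq1, hq2, -⟩ := exists_avoid hP (S G) (S G)
      have hc0 := ho.nonneg
      refine ⟨b + min c (2 * L) + 3 * D, B + gcost G + 2 * L, n + G.length + 2, ?_, ?_,
        Or.inl ⟨st_none m1, e1, ?_, ?_, ?_⟩⟩
      · have i1 : min c (2 * L) ≤ c := min_le_left _ _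
        have i2 : min c (2 * L) ≤ 2 * L := min_le_right _ _
        have i3 : C * min c (2 * L) ≤ C * c := mul_le_mul_of_nonneg_left i1 hC
        have i4 : (1 - ε) * min c (2 * L) ≤ (1 - ε) * (2 * L) :=
          mul_le_mul_of_nonneg_left i2 (by linarith)
        have i5 : 3 * D * ε ≥ 0 := by positivity
        nlinarith
      · nlinarith
      · have := hz1 h hhP
        change _ ≤ dist g h + gcost (g :: H)
        linarith
      · rw [List.length_cons, Nat.cast_add, m6]
        simp
        ring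
      · rcases le_total c (2 * L) with hcL | hcL
        · refine ⟨o', ho1, c' + dist o' o', ?_, Off.cons hoff (mem_insert_of_mem ho1)
            (by rw [e1]; exact hne o' ho1) (by rwa [e2])⟩
          rw [dist_self, min_eq_left hcL]
          linarith
        · refine ⟨q, hq1, c₁ + dist g q, ?_, Off.cons m8 (mem_insert_of_mem hq1)
            (by rw [e1]; exact hne q hq1) (by rwa [e2])⟩
          have := hz2 q hq1
          rw [min_eq_right hcL]
          linarith

/-- a far point adds one to the ratio -/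
theorem Adv.far {P : Finset M} {C ε D : ℝ} (hC : 0 ≤ C) (hP : 3 ≤ P.card) (hA : Adv P C)
    (hε : 0 < ε) (hε1 : ε ≤ 1) (hD : ∀ p ∈ P, ∀ q ∈ P, dist p q ≤ D) :
    ∃ L₀ : ℝ, ∀ (z : M) (L : ℝ), L₀ ≤ L → z ∉ P → (∀ p ∈ P, L ≤ dist z p) →
      (∀ p ∈ P, dist z p ≤ L + D) → Adv (insert z P) (C + 1 - ε) := by
  obtain ⟨S, K, η, hη, hS, hG⟩ := hA
  refine ⟨max 0 (max ((K + 3 * D * (C + 1)) / (2 * ε)) ((K + 2 * η) / 2)), ?_⟩
  intro z L hL hz hz1 hz2
  have hL0 : 0 ≤ L := (le_max_left _ _).trans hL
  have hL1 : K + 3 * D * (C + 1) ≤ 2 * ε * L := by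
    have := ((le_max_left _ _).trans (le_max_right _ _)).trans hL
    rw [div_le_iff₀ (by positivity)] at this
    linarith
  have hL2 : K + 2 * η ≤ 2 * L := by
    have := ((le_max_right _ _).trans (le_max_right _ _)).trans hL
    rw [div_le_iff₀ (by positivity)] at this
    linarith
  have hD0 : 0 ≤ D := by
    obtain ⟨p, hp⟩ : P.Nonempty := card_pos.1 (by omega)
    exact dist_nonneg.trans (hD p hp p hp)
  have hC' : 0 ≤ C + 1 - ε := by linarith
  refine ⟨farS z S, 2 * η + |K| + (C + 1 - ε) * (L + 2 * D), η, hη, ?_, ?_⟩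
  · intro H
    unfold farS
    split
    · exact mem_insert_self _ _
    · exact mem_insert_of_mem (hS _)
  · intro H hH
    obtain ⟨b, B, n, hb, hn, hm⟩ := inv hC hP hη hS hG hε hε1 hz hD hz1 hz2 hL0 hL1 hL2 hH
    have hx : 0 ≤ (C + 1 - ε) * (L + 2 * D) := mul_nonneg hC' (by linarith)
    have hK := abs_nonneg K
    have hK' := le_abs_self K
    rcases hm with hm | hm | hm
    · obtain ⟨m1, m2, m3, m4, q, hq, c, hc, hoff⟩ := hm
      refine ⟨⟨q, c, hoff, ?_⟩, ?_⟩
      · have := mul_le_mul_of_nonneg_left hc hC'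
        linarith
      · rw [← m4]
        linarith
    · obtain ⟨g', G, m1, m2, m3, m4, m5, m6, m7, o₁, c₁, m8, m9⟩ := hm
      have h1 := gcost_nonneg (g' :: G)
      refine ⟨⟨o₁, c₁, m8, ?_⟩, ?_⟩
      · have h2 : c₁ ≤ b + (L + 2 * D) := by
          have : 0 ≤ dist o₁ z := dist_nonneg
          linarith
        have := mul_le_mul_of_nonneg_left h2 hC'
        linarith
      · have h3 := (hG _ m4).2
        rw [m6]
        linarith
    · obtain ⟨G, m1, m2, m3, m4, m5, m6, m7, c₁, m8, m9⟩ := hm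
      have h1 := gcost_nonneg G
      refine ⟨⟨z, c₁, m8, ?_⟩, ?_⟩
      · have h2 : c₁ ≤ b + (L + 2 * D) := by linarith
        have := mul_le_mul_of_nonneg_left h2 hC'
        linarith
      · have h3 := (hG _ m4).2
        rw [m6]
        linarith

theorem Adv.far' {P : Finset M} {C ε D : ℝ} (hC : 0 ≤ C) (hP : 3 ≤ P.card) (hA : Adv P C)
    (hε : 0 < ε) (hε1 : ε ≤ 1) (hD : ∀ p ∈ P, ∀ q ∈ P, dist p q ≤ D) :
    ∃ L₀ : ℝ, ∀ (z : M) (L : ℝ), L₀ ≤ L → z ∉ P → (∀ p ∈ P, L ≤ dist z p) →
      (∀ p ∈ P, dist z p ≤ L + D) → ∃ P' : Finset M, P'.card = P.card + 1 ∧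
        Adv P' (C + 1 - ε) := by
  obtain ⟨L₀, h⟩ := hA.far hC hP hε hε1 hD
  exact ⟨L₀, fun z L h1 h2 h3 h4 => ⟨insert z P, card_insert_of_notMem h2, h z L h1 h2 h3 h4⟩⟩

end game

end Pool.Agent.X185.KS
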