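import Pool.Agent.X185.KS.Base
import Pool.Agent.X185.KS.Delayed

/-!
# Lower bounds for the delayed k-server problem from the hole game
-/

set_option autoImplicit false
set_option linter.unusedSectionVars false
set_option linter.unusedVariables false

namespace Pool.Agent.X185.KS

open Finset Function

/-- the requests in chronological order -/
def reqs {M : Type*} (S : List M → M) : List M → List M
  | [] => []
  | _ :: H => reqs S H ++ [S H]

lemma reqs_length {M : Type*} (S : List M → M) (H : List M) :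
    (reqs S H).length = H.length := by
  induction H with
  | nil => rfl
  | cons h H ih => simp [reqs, ih]

section
variable {M : Type*} [MetricSpace M] {k : ℕ}

lemma schedCost_nonneg (σ : ℕ → State M k) (n : ℕ) : 0 ≤ schedCost σ n :=
  sum_nonneg fun _ _ => sum_nonneg fun _ _ => dist_nonneg

lemma algCost_append (alg : List M → State M k) (ρ : List M) (r : M) :
    algCost alg (ρ ++ [r]) = algCost alg ρ + moveCost (alg ρ) (alg (ρ ++ [r])) := by
  unfold algCost schedCost
  rw [List.length_append, List.length_singleton, sum_range_succ]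
  congr 1
  · refine sum_congr rfl fun t ht => ?_
    rw [mem_range] at ht
    change moveCost (alg (List.take t (ρ ++ [r]))) (alg (List.take (t + 1) (ρ ++ [r]))) =
      moveCost (alg (List.take t ρ)) (alg (List.take (t + 1) ρ))
    rw [List.take_append_of_le_length ht.le, List.take_append_of_le_length ht]
  · change moveCost (alg (List.take ρ.length (ρ ++ [r])))
      (alg (List.take (ρ.length + 1) (ρ ++ [r]))) = _
    rw [List.take_append_of_le_length le_rfl, List.take_length, List.take_of_length_le (by simp)]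

lemma exists_label {P : Finset M} {g : M} {c : Fin k → M} (hcard : P.card = k + 1) (hg : g ∈ P)
    (hc : Injective c) (hcP : ∀ i, c i ∈ P ∧ c i ≠ g) {x : M} (hx : x ∈ P) (hxg : x ≠ g) :
    ∃ i, c i = x := by
  classical
  have h1 : univ.image c = P.erase g := by
    refine eq_of_subset_of_card_le ?_ ?_
    · intro y hy
      rw [mem_image] at hy
      obtain ⟨i, -, rfl⟩ := hy
      exact mem_erase.2 ⟨(hcP i).2, (hcP i).1⟩
    · rw [card_erase_of_mem hg, card_image_of_injective _ hc, hcard, card_univ, Fintype.card_fin]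
      simp
  have h2 : x ∈ univ.image c := by
    rw [h1]
    exact mem_erase.2 ⟨hxg, hx⟩
  rw [mem_image] at h2
  obtain ⟨i, -, hi⟩ := h2
  exact ⟨i, hi⟩

lemma exists_config {P : Finset M} (hcard : P.card = k + 1) {g : M} (hg : g ∈ P) {x : M}
    (hx : x ∈ P) (hxg : x ≠ g) (s : Fin k) :
    ∃ c : Fin k → M, Injective c ∧ (∀ i, c i ∈ P ∧ c i ≠ g) ∧ c s = x := by
  classical
  have h1 : (P.erase g).card = k := by
    rw [card_erase_of_mem hg, hcard]
    simp
  let e := (P.erase g).equivFinOfCardEq h1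
  let c₀ : Fin k → M := fun i => (e.symm i : M)
  have hc₀ : Injective c₀ := fun i j h => e.symm.injective (Subtype.ext h)
  have hP₀ : ∀ i, c₀ i ∈ P ∧ c₀ i ≠ g := fun i => by
    have := (e.symm i).2
    rw [mem_erase] at this
    exact ⟨this.2, this.1⟩
  obtain ⟨j, hj⟩ := exists_label hcard hg hc₀ hP₀ hx hxg
  refine ⟨c₀ ∘ Equiv.swap s j, hc₀.comp (Equiv.injective _), fun i => hP₀ _, ?_⟩
  simp [hj]

lemma update_config {P : Finset M} {g : M} {c : Fin k → M} (hg : g ∈ P)
    (hc : Injective c) (hcP : ∀ i, c i ∈ P ∧ c i ≠ g) (s : Fin k) :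
    Injective (update c s g) ∧ ∀ i, update c s g i ∈ P ∧ update c s g i ≠ c s := by
  constructor
  · intro i j hij
    by_cases hi : i = s <;> by_cases hj : j = s
    · rw [hi, hj]
    · subst hi
      rw [update_self, update_of_ne hj] at hij
      exact absurd hij.symm (hcP j).2
    · subst hj
      rw [update_self, update_of_ne hi] at hij
      exact absurd hij (hcP i).2
    · rw [update_of_ne hi, update_of_ne hj] at hij
      exact hc hij
  · intro i
    by_cases hi : i = s
    · subst hi
      rw [update_self]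
      exact ⟨hg, (hcP i).2.symm⟩
    · rw [update_of_ne hi]
      exact ⟨(hcP i).1, fun h => hi (hc h)⟩

lemma D_update_right (X c : Fin k → M) (s : Fin k) (r : M) :
    D X (update c s r) = D X c - dist (X s) (c s) + dist (X s) r := by
  unfold D
  rw [← add_sum_erase univ (fun j => dist (X j) (c j)) (mem_univ s),
    ← add_sum_erase univ (fun j => dist (X j) (update c s r j)) (mem_univ s)]
  have : ∑ j ∈ univ.erase s, dist (X j) (update c s r j) = ∑ j ∈ univ.erase s,
      dist (X j) (c j) := by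
    refine sum_congr rfl fun j hj => ?_
    rw [update_of_ne (ne_of_mem_erase hj)]
  rw [this, update_self]
  ring

variable [NeZero k]

/-- the invariant of the online player -/
def OnInv (P : Finset M) (S : List M → M) (alg : List M → State M k) (Φ : ℝ) (H : List M) :
    Prop :=
  Legal P S H ∧ ∃ (g : M) (c : Fin k → M), H.head? = some g ∧ Injective c ∧
    (∀ i, c i ∈ P ∧ c i ≠ g) ∧ c (alg (reqs S H)).2 = S H.tail ∧
    (alg (reqs S H)).1 (alg (reqs S H)).2 = S H.tail ∧
    gcost H + D (alg (reqs S H)).1 c ≤ algCost alg (reqs S H) + Φ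

lemma OnInv.step {P : Finset M} (hcard : P.card = k + 1) {S : List M → M} (hS : ∀ H, S H ∈ P)
    {x₀ : State M k} {alg : List M → State M k} (hon : IsOnline x₀ alg) {Φ : ℝ} {H : List M}
    (h : OnInv P S alg Φ H) : ∃ h', OnInv P S alg Φ (h' :: H) := by
  obtain ⟨hleg, g, c, h1, hc, hcP, h2, h3, h4⟩ := h
  match H, h1 with
  | g' :: H', h1 =>
  simp only [List.head?_cons, Option.some.injEq] at h1
  subst h1
  rw [List.tail_cons] at h2 h3
  set ρ := reqs S (g' :: H') with hρ
  set r := S (g' :: H') with hr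
  set y := alg ρ with hy
  set y' := alg (ρ ++ [r]) with hy'
  have hstep : Step y r y' := hon.2 ρ r
  have hcost : algCost alg (ρ ++ [r]) = algCost alg ρ + D y.1 y'.1 := algCost_append alg ρ r
  have htri : D y'.1 c ≤ D y.1 y'.1 + D y.1 c := by
    have := D_triangle y'.1 y.1 c
    rwa [D_comm y'.1 y.1] at this
  have hrP : r ∈ P := hS _
  have hgP : g' ∈ P := hleg.mem
  by_cases hrg : r = g'
  · -- the hole is requested
    have hs : y'.2 ≠ y.2 := by
      intro hs
      have e1 := hstep.1
      have e2 := hstep.2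
      rw [hs, e1, h3, ← h2, hrg] at e2
      exact (hcP y.2).2 e2
    obtain ⟨u1, u2⟩ := update_config hgP hc hcP y'.2
    refine ⟨c y'.2, Legal.cons hleg (hcP _).1 ?_ ?_, c y'.2, update c y'.2 g', rfl, u1, u2, ?_, ?_,
      ?_⟩
    · rw [← hr, hrg]
      exact (hcP _).2
    · rw [← h2]
      exact fun h => hs (hc h)
    · change update c y'.2 g' y'.2 = S (g' :: H')
      rw [update_self]
      exact hrg.symm
    · exact hstep.2
    · change dist g' (c y'.2) + gcost (g' :: H') + D y'.1 (update c y'.2 g') ≤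
        algCost alg (ρ ++ [r]) + Φ
      rw [hcost, D_update_right, hstep.2, hrg, dist_self]
      linarith
  · obtain ⟨j, hj⟩ := exists_label hcard hgP hc hcP hrP hrg
    refine ⟨g', Legal.cons hleg hgP (fun h => hrg h.symm) ?_, g', c ∘ Equiv.swap y'.2 j, rfl,
      hc.comp (Equiv.injective _), fun i => hcP _, ?_, hstep.2, ?_⟩
    · rw [← h2]
      exact (hcP _).2.symm
    · change (c ∘ Equiv.swap y'.2 j) y'.2 = S (g' :: H')
      rw [Function.comp_apply, Equiv.swap_apply_left, hj]
    · change dist g' g' + gcost (g' :: H') + D y'.1 (c ∘ Equiv.swap y'.2 j) ≤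
        algCost alg (ρ ++ [r]) + Φ
      have h5 : D y'.1 (c ∘ Equiv.swap y'.2 j) ≤ D y'.1 c := by
        refine swap_le ?_
        rw [hj]
        exact hstep.2
      rw [hcost, dist_self]
      linarith

lemma online_inv (hk : 2 ≤ k) {P : Finset M} (hcard : P.card = k + 1) {S : List M → M}
    (hS : ∀ H, S H ∈ P) {x₀ : State M k} {alg : List M → State M k} (hon : IsOnline x₀ alg) :
    ∃ Φ : ℝ, ∀ n : ℕ, ∃ H : List M, H.length = n + 1 ∧ OnInv P S alg Φ H := by
  obtain ⟨g, hg, hgS, -⟩ := exists_avoid (P := P) (by omega) (S []) (S [])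
  obtain ⟨c, hc, hcP, hcs⟩ := exists_config hcard hg (hS []) hgS.symm (alg [S []]).2
  refine ⟨D (alg [S []]).1 c, fun n => ?_⟩
  induction n with
  | zero =>
    refine ⟨[g], rfl, Legal.one hg hgS, g, c, rfl, hc, hcP, hcs, ?_, ?_⟩
    · exact (hon.2 [] (S [])).2
    · change 0 + D (alg [S []]).1 c ≤ algCost alg [S []] + _
      have : 0 ≤ algCost alg [S []] := schedCost_nonneg _ _
      linarith
  | succ n ih =>
    obtain ⟨H, hH, hinv⟩ := ih
    obtain ⟨h', h2⟩ := hinv.step hcard hS hon
    exact ⟨h' :: H, by simp [hH], h2⟩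

/-- the invariant of the offline player -/
def OffInv (P : Finset M) (S : List M → M) (x₀ : State M k) (K : ℝ) (H : List M) (o : M)
    (c : ℝ) : Prop :=
  ∃ (σ : ℕ → State M k) (cc : Fin k → M), IsSchedule x₀ (reqs S H) σ ∧ Injective cc ∧
    (∀ i, cc i ∈ P ∧ cc i ≠ o) ∧ cc (σ H.length).2 = S H.tail ∧
    (σ H.length).1 (σ H.length).2 = S H.tail ∧
    schedCost σ H.length + D (σ H.length).1 cc ≤ c + K

lemma sched_extend {x₀ : State M k} {ρ : List M} {σ : ℕ → State M k} (h : IsSchedule x₀ ρ σ)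
    {r : M} {y : State M k} (hy : Step (σ ρ.length) r y) {n : ℕ} (hn : n = ρ.length) :
    IsSchedule x₀ (ρ ++ [r]) (fun t => if t ≤ n then σ t else y) ∧
      schedCost (fun t => if t ≤ n then σ t else y) (n + 1) =
        schedCost σ n + moveCost (σ n) y := by
  subst hn
  refine ⟨⟨?_, ?_⟩, ?_⟩
  · simpa using h.1
  · intro t ht
    rw [List.length_append, List.length_singleton] at ht
    by_cases h1 : t < ρ.length
    · have h2 := h.2 t h1
      rw [List.getElem_append_left h1]
      simpa [h1.le, Nat.succ_le_of_lt h1] using h2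
    · have h2 : t = ρ.length := by omega
      subst h2
      simpa using hy
  · unfold schedCost
    rw [sum_range_succ]
    congr 1
    · refine sum_congr rfl fun t ht => ?_
      rw [mem_range] at ht
      simp [ht.le, Nat.succ_le_of_lt ht]
    · simp

lemma off_inv (hk : 2 ≤ k) {P : Finset M} (hcard : P.card = k + 1) {S : List M → M}
    (hS : ∀ H, S H ∈ P) (x₀ : State M k) {H : List M} {o : M} {c : ℝ} (hoff : Off P S H o c) :
    OffInv P S x₀ (∑ i, ∑ p ∈ P, dist (x₀.1 i) p) H o c := by
  induction hoff with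
  | @one h o h1 h2 =>
    -- a server different from the frozen one
    obtain ⟨s, hs⟩ : ∃ s : Fin k, s ≠ x₀.2 := by
      have : Nontrivial (Fin k) := Fin.nontrivial_iff_two_le.2 hk
      exact exists_ne x₀.2
    obtain ⟨cc, hc, hcP, hcs⟩ := exists_config hcard h1 (hS []) (fun h => h2 h.symm) s
    refine ⟨fun t => if t = 0 then x₀ else (update cc x₀.2 (x₀.1 x₀.2), s), cc, ⟨rfl, ?_⟩, hc, hcP,
      ?_, ?_, ?_⟩
    · intro t ht
      rw [reqs_length] at ht
      have ht0 : t = 0 := by simpa using ht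
      subst ht0
      refine ⟨?_, ?_⟩
      · simp
      · change update cc x₀.2 (x₀.1 x₀.2) s = _
        rw [update_of_ne hs, hcs]
        rfl
    · exact hcs
    · change update cc x₀.2 (x₀.1 x₀.2) s = _
      rw [update_of_ne hs, hcs]
      rfl
    · have e1 : schedCost (fun t : ℕ => if t = 0 then x₀ else
          ((update cc x₀.2 (x₀.1 x₀.2), s) : State M k)) [h].length =
          D x₀.1 (update cc x₀.2 (x₀.1 x₀.2)) := by
        unfold schedCost
        rw [List.length_singleton, sum_range_one]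
        rfl
      rw [e1]
      change D x₀.1 (update cc x₀.2 (x₀.1 x₀.2)) + D (update cc x₀.2 (x₀.1 x₀.2)) cc ≤ _
      have e2 : D (update cc x₀.2 (x₀.1 x₀.2)) cc = dist (x₀.1 x₀.2) (cc x₀.2) := by
        rw [D_comm, D_update, dist_comm]
      rw [D_update_right, e2, dist_self]
      have e3 : D x₀.1 cc ≤ ∑ i, ∑ p ∈ P, dist (x₀.1 i) p := by
        refine sum_le_sum fun i _ => ?_
        exact single_le_sum (f := fun p => dist (x₀.1 i) p) (fun _ _ => dist_nonneg) (hcP i).1
      linarith
  | @cons h g H o o' c hoff h1 h2 h3 ih =>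
    obtain ⟨σ, cc, hσ, hc, hcP, i1, i2, i3⟩ := ih
    rw [List.tail_cons] at i1 i2
    have hlen := reqs_length S (g :: H)
    -- the new configuration
    obtain ⟨cc', hc', hcP', hf, hD'⟩ : ∃ cc' : Fin k → M, Injective cc' ∧
        (∀ i, cc' i ∈ P ∧ cc' i ≠ o') ∧ cc' (σ (g :: H).length).2 = cc (σ (g :: H).length).2 ∧
        D cc cc' ≤ dist o o' := by
      by_cases hoo : o' = o
      · subst hoo
        exact ⟨cc, hc, hcP, rfl, by rw [D_self, dist_self]⟩
      · obtain ⟨j, hj⟩ := exists_label hcard hoff.mem hc hcP h1 hoo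
        obtain ⟨u1, u2⟩ := update_config hoff.mem hc hcP j
        rw [hj] at u2
        refine ⟨update cc j o, u1, u2, ?_, ?_⟩
        · refine update_of_ne ?_ _ _
          intro h4
          rw [h4, hj] at i1
          exact h3 i1
        · rw [D_update, hj, dist_comm]
    obtain ⟨s, hs⟩ := exists_label hcard h1 hc' hcP' (hS (g :: H)) (fun h => h2 h.symm)
    have hstep : Step (σ (reqs S (g :: H)).length) (S (g :: H)) (cc', s) := by
      rw [hlen]
      exact ⟨hf.trans (i1.trans i2.symm), hs⟩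
    obtain ⟨j1, j2⟩ := sched_extend hσ hstep hlen.symm
    refine ⟨_, cc', j1, hc', hcP', ?_, ?_, ?_⟩
    · simpa using hs
    · simpa using hs
    · have e1 : (h :: g :: H).length = (g :: H).length + 1 := rfl
      rw [e1, j2]
      have e2 : ¬ ((g :: H).length + 1 ≤ (g :: H).length) := by omega
      simp only [e2, if_false]
      rw [D_self]
      have e3 : moveCost (σ (g :: H).length) (cc', s) ≤
          D (σ (g :: H).length).1 cc + D cc cc' := D_triangle _ _ _
      linarith

theorem lower (hk : 2 ≤ k) {P : Finset M} (hcard : P.card = k + 1) {C : ℝ} (hC : 0 < C)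
    (hA : Adv P C) (x₀ : State M k) {C' : ℝ} (hcomp : Competitive C' x₀) : C ≤ C' := by
  by_contra hlt
  push Not at hlt
  obtain ⟨S, K, η, hη, hS, hG⟩ := hA
  obtain ⟨alg, hon, K', hK'⟩ := hcomp
  obtain ⟨Φ, hΦ⟩ := online_inv hk hcard hS hon
  set K₁ := ∑ i, ∑ p ∈ P, dist (x₀.1 i) p with hK₁
  set C₁ := max C' 0 with hC₁
  have hC₁0 : 0 ≤ C₁ := le_max_right _ _
  have hC₁C : C₁ < C := max_lt hlt hC
  obtain ⟨n, hn⟩ := exists_nat_gt
    (((C₁ * K + C * (C₁ * K₁ + K' + Φ)) / (C - C₁) + K) / η)
  rw [div_lt_iff₀ hη] at hn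
  obtain ⟨H, hHn, hleg, g, c, h1, hc, hcP, h2, h3, h4⟩ := hΦ n
  obtain ⟨⟨o, b, hoff, hb⟩, hlen⟩ := hG H hleg
  obtain ⟨σ, cc, hσ, -, -, -, -, hcost⟩ := off_inv hk hcard hS x₀ hoff
  have hopt0 : 0 ≤ opt x₀ (reqs S H) := by
    refine Real.sInf_nonneg ?_
    rintro _ ⟨σ', -, rfl⟩
    exact schedCost_nonneg _ _
  have hopt : opt x₀ (reqs S H) ≤ b + K₁ := by
    have e1 : opt x₀ (reqs S H) ≤ schedCost σ (reqs S H).length := by
      refine csInf_le ⟨0, ?_⟩ ⟨σ, hσ, rfl⟩
      rintro _ ⟨σ', -, rfl⟩
      exact schedCost_nonneg _ _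
    refine e1.trans ?_
    rw [reqs_length]
    have := D_nonneg (σ H.length).1 cc
    linarith
  have h5 := hK' (reqs S H)
  have h6 : C' * opt x₀ (reqs S H) ≤ C₁ * opt x₀ (reqs S H) :=
    mul_le_mul_of_nonneg_right (le_max_left _ _) hopt0
  have h7 : C₁ * opt x₀ (reqs S H) ≤ C₁ * (b + K₁) := mul_le_mul_of_nonneg_left hopt hC₁0
  have h8 := D_nonneg (alg (reqs S H)).1 c
  have h9 : gcost H ≤ C₁ * b + (C₁ * K₁ + K' + Φ) := by linarith
  have h10 : C * gcost H ≤ C₁ * (C * b) + C * (C₁ * K₁ + K' + Φ) := by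
    have := mul_le_mul_of_nonneg_left h9 hC.le
    linarith
  have h11 : C₁ * (C * b) ≤ C₁ * (gcost H + K) := mul_le_mul_of_nonneg_left hb hC₁0
  have h12 : (C - C₁) * gcost H ≤ C₁ * K + C * (C₁ * K₁ + K' + Φ) := by linarith
  have h13 : gcost H ≤ (C₁ * K + C * (C₁ * K₁ + K' + Φ)) / (C - C₁) := by
    rw [le_div_iff₀' (by linarith)]
    exact h12
  rw [hHn] at hlen
  push_cast at hlen
  linarith

end

theorem lower_plane {k : ℕ} (hk : 3 ≤ k) (x₀ : State (ℝ × ℝ) k) {C' : ℝ}
    (hcomp : Competitive C' x₀) : (k : ℝ) ≤ C' := by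
  have : NeZero k := ⟨by omega⟩
  obtain ⟨n, rfl⟩ : ∃ n, k = n + 3 := ⟨k - 3, by omega⟩
  refine le_of_forall_lt fun C hC => ?_
  by_cases h1 : C < 1
  · obtain ⟨P, hcard, hP⟩ := exists_adv n 1 (by norm_num) (by
      have : (0 : ℝ) ≤ n := Nat.cast_nonneg n
      linarith)
    exact h1.trans_le (lower (by omega) hcard one_pos hP x₀ hcomp)
  · push Not at h1
    push_cast at hC
    obtain ⟨P, hcard, hP⟩ := exists_adv n ((C + (n + 3)) / 2) (by
      have : (0 : ℝ) ≤ n := Nat.cast_nonneg n
      linarith) (by linarith)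
    have := lower (by omega) hcard (by linarith) hP x₀ hcomp
    linarith

end Pool.Agent.X185.KS
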