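import Mathlib

/-!
# Work functions of the k-server problem

Labelled configurations are functions `Fin k → M`.  The theorem of Koutsoupias and Papadimitriou:
the work function algorithm is `(2 k - 1)`-competitive.
-/

set_option autoImplicit false
set_option linter.unusedSimpArgs false
set_option linter.unusedSectionVars false

namespace Pool.Agent.X185.KS

open Finset Function

variable {M : Type*} [PseudoMetricSpace M] {k : ℕ}

/-- sum of the distances -/
noncomputable def D (X Y : Fin k → M) : ℝ := ∑ i, dist (X i) (Y i)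

/-- sum of the distances to a point -/
noncomputable def Dr (r : M) (X : Fin k → M) : ℝ := ∑ i, dist r (X i)

lemma D_nonneg (X Y : Fin k → M) : 0 ≤ D X Y := sum_nonneg fun _ _ => dist_nonneg

lemma D_comm (X Y : Fin k → M) : D X Y = D Y X := sum_congr rfl fun _ _ => dist_comm _ _

lemma D_self (X : Fin k → M) : D X X = 0 := by simp [D]

lemma D_triangle (X Y Z : Fin k → M) : D X Z ≤ D X Y + D Y Z := by
  unfold D
  rw [← sum_add_distrib]
  exact sum_le_sum fun i _ => dist_triangle _ _ _

lemma D_comp (X Y : Fin k → M) (σ : Equiv.Perm (Fin k)) : D (X ∘ σ) (Y ∘ σ) = D X Y :=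
  Equiv.sum_comp σ (fun i => dist (X i) (Y i))

lemma Dr_comp (r : M) (X : Fin k → M) (σ : Equiv.Perm (Fin k)) : Dr r (X ∘ σ) = Dr r X :=
  Equiv.sum_comp σ (fun i => dist r (X i))

lemma D_update (X : Fin k → M) (i : Fin k) (r : M) : D X (update X i r) = dist (X i) r := by
  unfold D
  rw [Finset.sum_eq_single i]
  · simp
  · intro j _ hj
    simp [update_of_ne hj]
  · simp

lemma Dr_update (r : M) (X : Fin k → M) (i : Fin k) (y : M) :
    Dr r (update X i y) = Dr r X - dist r (X i) + dist r y := by
  unfold Dr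
  rw [← add_sum_erase univ (fun j => dist r (X j)) (mem_univ i),
    ← add_sum_erase univ (fun j => dist r (update X i y j)) (mem_univ i)]
  have : ∑ j ∈ univ.erase i, dist r (update X i y j) = ∑ j ∈ univ.erase i, dist r (X j) := by
    refine sum_congr rfl fun j hj => ?_
    rw [update_of_ne (ne_of_mem_erase hj)]
  rw [this, update_self]
  ring

/-- the properties of work functions -/
structure Good (w : (Fin k → M) → ℝ) : Prop where
  symm : ∀ X (σ : Equiv.Perm (Fin k)), w (X ∘ σ) = w X
  lip : ∀ X Y, w X ≤ w Y + D X Y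
  qc : ∀ A B, ∃ σ : Equiv.Perm (Fin k), ∀ S : Finset (Fin k),
    w (S.piecewise A (B ∘ σ)) + w (S.piecewise (B ∘ σ) A) ≤ w A + w B

variable {w : (Fin k → M) → ℝ}

lemma Good.fix (hw : Good w) {A B : Fin k → M} {r : M} {j l : Fin k} (hj : A j = r)
    (hl : B l = r) : ∃ σ : Equiv.Perm (Fin k), σ j = l ∧ ∀ S : Finset (Fin k),
      w (S.piecewise A (B ∘ σ)) + w (S.piecewise (B ∘ σ) A) ≤ w A + w B := by
  obtain ⟨σ, hσ⟩ := hw.qc A B
  obtain ⟨i, hi⟩ := σ.surjective l
  by_cases hij : i = j
  · exact ⟨σ, by rw [← hij, hi], hσ⟩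
  obtain ⟨τ, hτ⟩ : ∃ τ : Equiv.Perm (Fin k), τ = σ * Equiv.swap j i := ⟨_, rfl⟩
  have e1 : ∀ x, x ≠ j → x ≠ i → τ x = σ x := by
    intro x h1 h2
    rw [hτ, Equiv.Perm.mul_apply, Equiv.swap_apply_of_ne_of_ne h1 h2]
  have e2 : τ j = l := by simp [hτ, hi]
  have e3 : τ i = σ j := by simp [hτ]
  refine ⟨τ, e2, fun S => ?_⟩
  by_cases h1 : j ∈ S <;> by_cases h2 : i ∈ S
  · have := hσ S
    have f1 : S.piecewise A (B ∘ τ) = S.piecewise A (B ∘ σ) := by
      funext x
      by_cases hx : x ∈ S
      · simp [hx]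
      · have hxj : x ≠ j := fun h => hx (h ▸ h1)
        have hxi : x ≠ i := fun h => hx (h ▸ h2)
        simp only [Finset.piecewise_eq_of_notMem _ _ _ hx, Function.comp_apply]
        rw [e1 x hxj hxi]
    have f2 : S.piecewise (B ∘ τ) A =
        (S.piecewise (B ∘ σ) A) ∘ Equiv.swap j i := by
      funext x
      by_cases hxj : x = j
      · subst hxj
        simp [e2, h1, h2, hi]
      by_cases hxi : x = i
      · subst hxi
        simp [e3, h1, h2]
      by_cases hx : x ∈ S
      · simp [hx, Equiv.swap_apply_of_ne_of_ne hxj hxi, e1 x hxj hxi]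
      · simp [hx, Equiv.swap_apply_of_ne_of_ne hxj hxi, e1 x hxj hxi]
    rw [f1, f2, hw.symm]
    exact this
  · have := hσ (S.erase j)
    have f1 : S.piecewise A (B ∘ τ) =
        ((S.erase j).piecewise A (B ∘ σ)) ∘ Equiv.swap j i := by
      funext x
      by_cases hxj : x = j
      · subst hxj
        simp [e2, h1, h2, hi, hj, hl]
      by_cases hxi : x = i
      · subst hxi
        simp [e3, h1, h2]
      by_cases hx : x ∈ S
      · simp [hx, hxj, Equiv.swap_apply_of_ne_of_ne hxj hxi, e1 x hxj hxi]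
      · simp [hx, Equiv.swap_apply_of_ne_of_ne hxj hxi, e1 x hxj hxi]
    have f2 : S.piecewise (B ∘ τ) A = (S.erase j).piecewise (B ∘ σ) A := by
      funext x
      by_cases hxj : x = j
      · subst hxj
        simp [e2, h1, hi, hj, hl]
      by_cases hxi : x = i
      · subst hxi
        simp [e3, h2]
      by_cases hx : x ∈ S
      · simp [hx, hxj, Equiv.swap_apply_of_ne_of_ne hxj hxi, e1 x hxj hxi]
      · simp [hx, e1 x hxj hxi]
    rw [f1, f2, hw.symm]
    exact this
  · have := hσ (insert j S)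
    have f1 : S.piecewise A (B ∘ τ) = (insert j S).piecewise A (B ∘ σ) := by
      funext x
      by_cases hxj : x = j
      · subst hxj
        simp [e2, h1, hi, hj, hl]
      by_cases hxi : x = i
      · subst hxi
        simp [e3, h2]
      by_cases hx : x ∈ S
      · simp [hx, e1 x hxj hxi]
      · simp [hx, hxj, Equiv.swap_apply_of_ne_of_ne hxj hxi, e1 x hxj hxi]
    have f2 : S.piecewise (B ∘ τ) A =
        ((insert j S).piecewise (B ∘ σ) A) ∘ Equiv.swap j i := by
      funext x
      by_cases hxj : x = j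
      · subst hxj
        simp [e2, h1, h2, hi, hj, hl]
      by_cases hxi : x = i
      · subst hxi
        simp [e3, h2]
      by_cases hx : x ∈ S
      · simp [hx, hxj, Equiv.swap_apply_of_ne_of_ne hxj hxi, e1 x hxj hxi]
      · simp [hx, hxj, Equiv.swap_apply_of_ne_of_ne hxj hxi, e1 x hxj hxi]
    rw [f1, f2, hw.symm]
    exact this
  · have := hσ S
    have f1 : S.piecewise A (B ∘ τ) =
        (S.piecewise A (B ∘ σ)) ∘ Equiv.swap j i := by
      funext x
      by_cases hxj : x = j
      · subst hxj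
        simp [e2, h1, h2, hi]
      by_cases hxi : x = i
      · subst hxi
        simp [e3, h1, h2]
      by_cases hx : x ∈ S
      · simp [hx, Equiv.swap_apply_of_ne_of_ne hxj hxi, e1 x hxj hxi]
      · simp [hx, Equiv.swap_apply_of_ne_of_ne hxj hxi, e1 x hxj hxi]
    have f2 : S.piecewise (B ∘ τ) A = S.piecewise (B ∘ σ) A := by
      funext x
      by_cases hx : x ∈ S
      · have hxj : x ≠ j := fun h => h1 (h ▸ hx)
        have hxi : x ≠ i := fun h => h2 (h ▸ hx)
        simp only [Finset.piecewise_eq_of_mem _ _ _ hx, Function.comp_apply]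
        rw [e1 x hxj hxi]
      · simp [hx]
    rw [f1, f2, hw.symm]
    exact this

/-- the exchange property -/
lemma Good.exch (hw : Good w) (A : Fin k → M) {Y : Fin k → M} {r : M} {l : Fin k}
    (hl : Y l = r) : ∃ i, w (update A i r) + w (update Y l (A i)) ≤ w A + w Y := by
  obtain ⟨σ, hσ⟩ := hw.qc A Y
  obtain ⟨i, hi⟩ := σ.surjective l
  refine ⟨i, ?_⟩
  have := hσ (univ.erase i)
  have f1 : (univ.erase i).piecewise A (Y ∘ σ) = update A i r := by
    funext x
    by_cases hx : x = i
    · subst hx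
      simp [hi, hl]
    · simp [hx]
  have f2 : (univ.erase i).piecewise (Y ∘ σ) A = (update Y l (A i)) ∘ σ := by
    funext x
    by_cases hx : x = i
    · subst hx
      simp [hi]
    · have : σ x ≠ l := fun h => hx (σ.injective (h.trans hi.symm))
      simp [hx, update_of_ne this]
  rw [f1, f2, hw.symm] at this
  exact this

variable [NeZero k]

/-- the work function after one more request -/
noncomputable def upd (w : (Fin k → M) → ℝ) (r : M) (X : Fin k → M) : ℝ :=
  univ.inf' ⟨0, mem_univ 0⟩ (fun i => w (update X i r) + dist (X i) r)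

lemma upd_le (w : (Fin k → M) → ℝ) (r : M) (X : Fin k → M) (i : Fin k) :
    upd w r X ≤ w (update X i r) + dist (X i) r :=
  inf'_le (f := fun i => w (update X i r) + dist (X i) r) (mem_univ i)

lemma upd_eq (w : (Fin k → M) → ℝ) (r : M) (X : Fin k → M) :
    ∃ i, upd w r X = w (update X i r) + dist (X i) r := by
  obtain ⟨i, _, h⟩ := exists_mem_eq_inf' (s := univ) ⟨0, mem_univ 0⟩
    (fun i => w (update X i r) + dist (X i) r)
  exact ⟨i, h⟩

lemma upd_of_mem (w : (Fin k → M) → ℝ) {r : M} {X : Fin k → M} {i : Fin k} (h : X i = r) :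
    upd w r X ≤ w X := by
  refine (upd_le w r X i).trans ?_
  rw [← h, update_eq_self, dist_self, add_zero]

lemma Good.le_upd (hw : Good w) (r : M) (X : Fin k → M) : w X ≤ upd w r X := by
  obtain ⟨i, hi⟩ := upd_eq w r X
  rw [hi]
  refine (hw.lip X (update X i r)).trans ?_
  rw [D_update]

lemma Good.upd (hw : Good w) (r : M) : Good (upd w r) where
  symm := by
    have key : ∀ X (σ : Equiv.Perm (Fin k)), KS.upd w r (X ∘ σ) ≤ KS.upd w r X := by
      intro X σ
      obtain ⟨i, hi⟩ := upd_eq w r X
      rw [hi]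
      refine (upd_le w r (X ∘ σ) (σ.symm i)).trans ?_
      have : update (X ∘ σ) (σ.symm i) r = (update X i r) ∘ σ := by
        funext x
        by_cases hx : x = σ.symm i
        · subst hx
          simp
        · have : σ x ≠ i := fun h => hx (by rw [← h]; simp)
          simp [update_of_ne hx, update_of_ne this]
      rw [this, hw.symm]
      simp
    intro X σ
    refine le_antisymm (key X σ) ?_
    have := key (X ∘ σ) σ⁻¹
    have h2 : (X ∘ σ) ∘ (σ⁻¹ : Equiv.Perm (Fin k)) = X := by
      funext x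
      simp
    rwa [h2] at this
  lip := by
    intro X Y
    obtain ⟨i, hi⟩ := upd_eq w r Y
    rw [hi]
    refine (upd_le w r X i).trans ?_
    have h1 := hw.lip (update X i r) (update Y i r)
    have h2 : D (update X i r) (update Y i r) + dist (X i) (Y i) = D X Y := by
      unfold D
      rw [← add_sum_erase univ (fun j => dist (X j) (Y j)) (mem_univ i),
        ← add_sum_erase univ (fun j => dist (update X i r j) (update Y i r j)) (mem_univ i)]
      have : ∑ j ∈ univ.erase i, dist (update X i r j) (update Y i r j) =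
          ∑ j ∈ univ.erase i, dist (X j) (Y j) := by
        refine sum_congr rfl fun j hj => ?_
        rw [update_of_ne (ne_of_mem_erase hj), update_of_ne (ne_of_mem_erase hj)]
      rw [this]
      simp only [update_self, dist_self]
      ring
    have h3 := dist_triangle (X i) (Y i) r
    linarith
  qc := by
    intro A B
    obtain ⟨a, ha⟩ := upd_eq w r A
    obtain ⟨b, hb⟩ := upd_eq w r B
    obtain ⟨σ, hab, hσ⟩ := hw.fix (A := update A a r) (B := update B b r) (r := r) (j := a)
      (l := b) (update_self ..) (update_self ..)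
    refine ⟨σ, fun S => ?_⟩
    have g1 : update (S.piecewise A (B ∘ σ)) a r =
        S.piecewise (update A a r) (update B b r ∘ σ) := by
      funext x
      by_cases hx : x = a
      · subst hx
        by_cases hS : x ∈ S
        · simp [hS]
        · simp [hS, hab]
      · have h1 : σ x ≠ b := fun h => hx (σ.injective (h.trans hab.symm))
        by_cases hS : x ∈ S
        · simp [hS, update_of_ne hx]
        · simp [hS, update_of_ne hx, update_of_ne h1]
    have g2 : update (S.piecewise (B ∘ σ) A) a r =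
        S.piecewise (update B b r ∘ σ) (update A a r) := by
      funext x
      by_cases hx : x = a
      · subst hx
        by_cases hS : x ∈ S
        · simp [hS, hab]
        · simp [hS]
      · have h1 : σ x ≠ b := fun h => hx (σ.injective (h.trans hab.symm))
        by_cases hS : x ∈ S
        · simp [hS, update_of_ne hx, update_of_ne h1]
        · simp [hS, update_of_ne hx]
    have h1 := upd_le w r (S.piecewise A (B ∘ σ)) a
    have h2 := upd_le w r (S.piecewise (B ∘ σ) A) a
    rw [g1] at h1
    rw [g2] at h2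
    have h3 := hσ S
    have h4 : dist (S.piecewise A (B ∘ σ) a) r + dist (S.piecewise (B ∘ σ) A a) r =
        dist (A a) r + dist (B b) r := by
      by_cases hS : a ∈ S
      · simp [hS, hab]
      · simp [hS, hab, add_comm]
    rw [ha, hb]
    linarith

section duality
variable {r : M} {A : Fin k → M} {ε : ℝ}

lemma Good.dual1 (hw : Good w) (hA : ∀ X, w A - Dr r A ≤ w X - Dr r X + ε) (B : Fin k → M) :
    KS.upd w r A - Dr r A ≤ KS.upd w r B - Dr r B + ε := by
  obtain ⟨b, hb⟩ := upd_eq w r B
  obtain ⟨i, hi⟩ := hw.exch A (Y := update B b r) (r := r) (l := b) (update_self ..)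
  rw [update_idem] at hi
  have h1 := upd_le w r A i
  have h2 := hA (update B b (A i))
  rw [Dr_update] at h2
  rw [dist_comm r (A i), dist_comm r (B b)] at h2
  rw [hb]
  linarith

lemma Good.dual2 (hw : Good w) (hA : ∀ X, w A - Dr r A ≤ w X - Dr r X + ε) (B : Fin k → M) :
    KS.upd w r B + w A ≤ KS.upd w r A + w B + ε := by
  obtain ⟨a, ha⟩ := upd_eq w r A
  obtain ⟨i, hi⟩ := hw.exch B (Y := update A a r) (r := r) (l := a) (update_self ..)
  rw [update_idem] at hi
  have h1 := upd_le w r B i
  have h2 := hA (update A a (B i))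
  rw [Dr_update] at h2
  rw [dist_comm r (B i), dist_comm r (A a)] at h2
  rw [ha]
  linarith

end duality

/-- the terms of the potential -/
noncomputable def Psi (w : (Fin k → M) → ℝ) (p : (Fin k → M) × (Fin k → Fin k → M)) : ℝ :=
  k * w p.1 + ∑ i, (w (p.2 i) - Dr (p.1 i) (p.2 i))

/-- the potential -/
noncomputable def Phi (w : (Fin k → M) → ℝ) : ℝ := ⨅ p, Psi w p

lemma phi_step [Nonempty M] (hw : Good w) {C : ℝ} (hC : ∀ p, C ≤ Psi w p) (r : M)
    (X : Fin k → M) : Phi w + (upd w r X - w X) ≤ Phi (upd w r) := by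
  have hk : (0 : ℝ) < k := by exact_mod_cast Nat.pos_of_ne_zero (NeZero.ne k)
  have hbdd : BddBelow (Set.range (Psi w)) := ⟨C, by rintro _ ⟨p, rfl⟩; exact hC p⟩
  have : Nonempty ((Fin k → M) × (Fin k → Fin k → M)) := inferInstance
  refine le_ciInf fun p => ?_
  obtain ⟨U, B⟩ := p
  refine le_of_forall_pos_le_add fun e he => ?_
  set ε := e / 2 with hε
  have hε0 : 0 < ε := by positivity
  obtain ⟨a, ha⟩ := upd_eq w r U
  -- an almost minimal configuration with respect to `r`
  obtain ⟨A, hA⟩ : ∃ A : Fin k → M, ∀ Y, w A - Dr r A ≤ w Y - Dr r Y + ε := by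
    have hb : BddBelow (Set.range fun Y : Fin k → M => w Y - Dr r Y) := by
      refine ⟨(C - k * w (fun _ => r)) / k, ?_⟩
      rintro _ ⟨Y, rfl⟩
      have h1 := hC (fun _ => r, fun _ => Y)
      unfold Psi at h1
      simp only [sum_const, card_univ, Fintype.card_fin, nsmul_eq_mul] at h1
      rw [div_le_iff₀ hk]
      change C - k * w (fun _ => r) ≤ (w Y - Dr r Y) * k
      linarith
    obtain ⟨A, hA⟩ := exists_lt_of_ciInf_lt
      (lt_add_of_pos_right (⨅ Y : Fin k → M, w Y - Dr r Y) hε0)
    refine ⟨A, fun Y => ?_⟩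
    have := ciInf_le hb Y
    linarith
  have d1 := hw.dual1 hA (B a)
  have d2 := hw.dual2 hA X
  have h1 : Phi w ≤ Psi w (update U a r, update B a A) := ciInf_le hbdd _
  have h2 : Psi w (update U a r, update B a A) + (upd w r A - w A) ≤
      Psi (upd w r) (U, B) + ε := by
    unfold Psi
    simp only
    rw [← add_sum_erase univ (fun i => w (update B a A i) -
        Dr (update U a r i) (update B a A i)) (mem_univ a),
      ← add_sum_erase univ (fun i => upd w r (B i) - Dr (U i) (B i)) (mem_univ a)]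
    simp only [update_self]
    have h3 : ∑ i ∈ univ.erase a, (w (update B a A i) - Dr (update U a r i) (update B a A i)) ≤
        ∑ i ∈ univ.erase a, (upd w r (B i) - Dr (U i) (B i)) := by
      refine sum_le_sum fun i hi => ?_
      rw [update_of_ne (ne_of_mem_erase hi), update_of_ne (ne_of_mem_erase hi)]
      have := hw.le_upd r (B i)
      linarith
    have h4 : (k : ℝ) * upd w r U = k * w (update U a r) + k * dist (U a) r := by
      rw [ha]; ring
    have h5 : Dr (U a) (B a) ≤ k * dist (U a) r + Dr r (B a) := by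
      unfold Dr
      calc ∑ i, dist (U a) (B a i) ≤ ∑ i : Fin k, (dist (U a) r + dist r (B a i)) :=
            sum_le_sum fun i _ => dist_triangle _ _ _
        _ = k * dist (U a) r + ∑ i, dist r (B a i) := by
            rw [sum_add_distrib]
            simp
    linarith
  linarith

/-- state of the algorithm: work function and configuration -/
abbrev WS (M : Type*) (k : ℕ) := ((Fin k → M) → ℝ) × (Fin k → M)

/-- the server that moves -/
noncomputable def idx (st : WS M k) (r : M) : Fin k := (upd_eq st.1 r st.2).choose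

lemma idx_spec (st : WS M k) (r : M) :
    upd st.1 r st.2 = st.1 (update st.2 (idx st r) r) + dist (st.2 (idx st r)) r :=
  (upd_eq st.1 r st.2).choose_spec

/-- one step of the work function algorithm -/
noncomputable def wstep (st : WS M k) (r : M) : WS M k :=
  (upd st.1 r, update st.2 (idx st r) r)

/-- the state after a sequence of requests -/
noncomputable def run (st : WS M k) : List M → WS M k
  | [] => st
  | r :: ρ => run (wstep st r) ρ

/-- the cost of the algorithm -/
noncomputable def wcost (st : WS M k) : List M → ℝ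
  | [] => 0
  | r :: ρ => dist (st.2 (idx st r)) r + wcost (wstep st r) ρ

lemma run_append (st : WS M k) (ρ ρ' : List M) : run st (ρ ++ ρ') = run (run st ρ) ρ' := by
  induction ρ generalizing st with
  | nil => rfl
  | cons r ρ ih => exact ih _

lemma wcost_append (st : WS M k) (ρ ρ' : List M) :
    wcost st (ρ ++ ρ') = wcost st ρ + wcost (run st ρ) ρ' := by
  induction ρ generalizing st with
  | nil => simp [wcost, run]
  | cons r ρ ih =>
    change _ + wcost (wstep st r) (ρ ++ ρ') = _
    rw [ih]
    change _ = _ + wcost (wstep st r) ρ + wcost (run (wstep st r) ρ) ρ'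
    ring

lemma wcost_nonneg (st : WS M k) (ρ : List M) : 0 ≤ wcost st ρ := by
  induction ρ generalizing st with
  | nil => exact le_rfl
  | cons r ρ ih => exact add_nonneg dist_nonneg (ih _)

lemma D_le_wcost (st : WS M k) (ρ : List M) : D st.2 (run st ρ).2 ≤ wcost st ρ := by
  induction ρ generalizing st with
  | nil => exact (D_self _).le
  | cons r ρ ih =>
    have h1 := ih (wstep st r)
    have h2 := D_triangle st.2 (wstep st r).2 (run (wstep st r) ρ).2
    have h3 : D st.2 (wstep st r).2 = dist (st.2 (idx st r)) r := D_update _ _ _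
    change D st.2 (run (wstep st r) ρ).2 ≤ _ + wcost (wstep st r) ρ
    linarith

lemma run_good {st : WS M k} (h : Good st.1) (ρ : List M) : Good (run st ρ).1 := by
  induction ρ generalizing st with
  | nil => exact h
  | cons r ρ ih => exact ih (st := wstep st r) (h.upd r)

lemma psi_mono {w w' : (Fin k → M) → ℝ} (h : ∀ X, w X ≤ w' X)
    (p : (Fin k → M) × (Fin k → Fin k → M)) : Psi w p ≤ Psi w' p := by
  unfold Psi
  have hk : (0 : ℝ) ≤ k := Nat.cast_nonneg k
  have h1 := mul_le_mul_of_nonneg_left (h p.1) hk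
  have h2 : ∑ i, (w (p.2 i) - Dr (p.1 i) (p.2 i)) ≤ ∑ i, (w' (p.2 i) - Dr (p.1 i) (p.2 i)) :=
    sum_le_sum fun i _ => by have := h (p.2 i); linarith
  linarith

lemma run_mono {st : WS M k} (h : Good st.1) (ρ : List M) (X : Fin k → M) :
    st.1 X ≤ (run st ρ).1 X := by
  induction ρ generalizing st with
  | nil => exact le_rfl
  | cons r ρ ih => exact (h.le_upd r X).trans (ih (st := wstep st r) (h.upd r))

lemma wcost_le_phi [Nonempty M] {st : WS M k} (h : Good st.1) {C : ℝ}
    (hC : ∀ p, C ≤ Psi st.1 p) (ρ : List M) :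
    wcost st ρ + (run st ρ).1 (run st ρ).2 - st.1 st.2 ≤ Phi (run st ρ).1 - Phi st.1 := by
  induction ρ generalizing st with
  | nil => simp [wcost, run]
  | cons r ρ ih =>
    have h1 := ih (st := wstep st r) (h.upd r)
      (fun p => (hC p).trans (psi_mono (fun X => h.le_upd r X) p))
    have h2 := phi_step h hC r st.2
    have h3 := idx_spec st r
    have h4 : (wstep st r).1 (wstep st r).2 ≤ st.1 (update st.2 (idx st r) r) :=
      upd_of_mem st.1 (update_self ..)
    change dist (st.2 (idx st r)) r + wcost (wstep st r) ρ + _ - _ ≤ _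
    change wcost (wstep st r) ρ + (run (wstep st r) ρ).1 (run (wstep st r) ρ).2 -
      (wstep st r).1 (wstep st r).2 ≤ Phi (run (wstep st r) ρ).1 - Phi (upd st.1 r) at h1
    change dist (st.2 (idx st r)) r + wcost (wstep st r) ρ +
      (run (wstep st r) ρ).1 (run (wstep st r) ρ).2 - st.1 st.2 ≤
      Phi (run (wstep st r) ρ).1 - Phi st.1
    linarith

lemma phi_le {w : (Fin k → M) → ℝ} {C : ℝ} (hC : ∀ p, C ≤ Psi w p) (X : Fin k → M) :
    Phi w ≤ 2 * k * w X := by
  have hbdd : BddBelow (Set.range (Psi w)) := ⟨C, by rintro _ ⟨p, rfl⟩; exact hC p⟩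
  refine (ciInf_le hbdd (X, fun _ => X)).trans ?_
  unfold Psi
  simp only
  have : ∑ i, (w X - Dr (X i) X) ≤ ∑ _i : Fin k, w X := by
    refine sum_le_sum fun i _ => ?_
    have : 0 ≤ Dr (X i) X := sum_nonneg fun _ _ => dist_nonneg
    linarith
  rw [sum_const, card_univ, Fintype.card_fin, nsmul_eq_mul] at this
  linarith

/-- the general bound -/
theorem wcost_le [Nonempty M] {st : WS M k} (h : Good st.1) {C : ℝ}
    (hC : ∀ p, C ≤ Psi st.1 p) (ρ : List M) (X : Fin k → M) :
    wcost st ρ ≤ (2 * k - 1) * (run st ρ).1 X - C + st.1 st.2 := by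
  have hk : (1 : ℝ) ≤ k := by exact_mod_cast Nat.one_le_iff_ne_zero.2 (NeZero.ne k)
  have h1 := wcost_le_phi h hC ρ
  have hC' : ∀ p, C ≤ Psi (run st ρ).1 p :=
    fun p => (hC p).trans (psi_mono (run_mono h ρ) p)
  have h2 : ∀ Y, Phi (run st ρ).1 ≤ 2 * k * (run st ρ).1 Y := phi_le hC'
  have h3 : C ≤ Phi st.1 := by
    have : Nonempty ((Fin k → M) × (Fin k → Fin k → M)) := inferInstance
    exact le_ciInf hC
  -- the infimum of the last work function
  by_cases hcase : (run st ρ).1 X ≤ (run st ρ).1 (run st ρ).2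
  · have := h2 X
    linarith
  · push Not at hcase
    have := h2 (run st ρ).2
    have h4 : (2 * (k : ℝ) - 1) * (run st ρ).1 (run st ρ).2 ≤
        (2 * k - 1) * (run st ρ).1 X := mul_le_mul_of_nonneg_left hcase.le (by linarith)
    linarith

/-- offline service of a sequence of requests: moves, and requests at points of the
configuration -/
inductive Serve : (Fin k → M) → List M → ℝ → (Fin k → M) → Prop
  | nil (X : Fin k → M) : Serve X [] 0 X
  | move {X Y Z : Fin k → M} {ρ : List M} {c : ℝ} : Serve Y ρ c Z → Serve X ρ (D X Y + c) Z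
  | req {X Z : Fin k → M} {r : M} {ρ : List M} {c : ℝ} (i : Fin k) : X i = r → Serve X ρ c Z →
      Serve X (r :: ρ) c Z

lemma run_le {X Z : Fin k → M} {ρ : List M} {c : ℝ} (hs : Serve X ρ c Z) :
    ∀ st : WS M k, Good st.1 → (run st ρ).1 Z ≤ st.1 X + c := by
  induction hs with
  | nil X => intro st _; simp [run]
  | @move X Y Z ρ c _ ih =>
    intro st h
    have h1 := ih st h
    have h2 := h.lip Y X
    rw [D_comm] at h2
    linarith
  | @req X Z r ρ c i hi _ ih =>
    intro st h
    have h1 := ih (wstep st r) (h.upd r)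
    have h2 : (wstep st r).1 X ≤ st.1 X := upd_of_mem st.1 hi
    change (run (wstep st r) ρ).1 Z ≤ _
    linarith

/-- the first work function -/
noncomputable def w0 (A : Fin k → M) (X : Fin k → M) : ℝ :=
  univ.inf' ⟨1, mem_univ (1 : Equiv.Perm (Fin k))⟩ (fun σ => D A (X ∘ σ))

lemma w0_le (A X : Fin k → M) (σ : Equiv.Perm (Fin k)) : w0 A X ≤ D A (X ∘ σ) :=
  inf'_le (f := fun σ : Equiv.Perm (Fin k) => D A (X ∘ σ)) (mem_univ σ)

lemma w0_eq (A X : Fin k → M) : ∃ σ : Equiv.Perm (Fin k), w0 A X = D A (X ∘ σ) := by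
  obtain ⟨i, _, h⟩ := exists_mem_eq_inf' (s := univ) ⟨1, mem_univ (1 : Equiv.Perm (Fin k))⟩
    (fun σ : Equiv.Perm (Fin k) => D A (X ∘ σ))
  exact ⟨i, h⟩

lemma w0_self (A : Fin k → M) : w0 A A = 0 := by
  refine le_antisymm ?_ ?_
  · refine (w0_le A A 1).trans ?_
    exact (D_self A).le
  · obtain ⟨σ, h⟩ := w0_eq A A
    rw [h]
    exact D_nonneg _ _

lemma w0_good (A : Fin k → M) : Good (w0 A) where
  symm := by
    have key : ∀ X (σ : Equiv.Perm (Fin k)), w0 A (X ∘ σ) ≤ w0 A X := by
      intro X σ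
      obtain ⟨τ, h⟩ := w0_eq A X
      rw [h]
      refine (w0_le A (X ∘ σ) (σ⁻¹ * τ)).trans ?_
      have : (X ∘ σ) ∘ (σ⁻¹ * τ : Equiv.Perm (Fin k)) = X ∘ τ := by
        funext x
        simp
      rw [this]
    intro X σ
    refine le_antisymm (key X σ) ?_
    have := key (X ∘ σ) σ⁻¹
    have h2 : (X ∘ σ) ∘ (σ⁻¹ : Equiv.Perm (Fin k)) = X := by
      funext x
      simp
    rwa [h2] at this
  lip := by
    intro X Y
    obtain ⟨τ, h⟩ := w0_eq A Y
    rw [h]
    refine (w0_le A X τ).trans ?_
    have h1 := D_triangle A (Y ∘ τ) (X ∘ τ)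
    rw [D_comp, D_comm Y X] at h1
    exact h1
  qc := by
    intro X Y
    obtain ⟨τ, h⟩ := w0_eq A X
    obtain ⟨υ, h'⟩ := w0_eq A Y
    refine ⟨υ * τ⁻¹, fun S => ?_⟩
    have h1 := w0_le A (S.piecewise X (Y ∘ (υ * τ⁻¹ : Equiv.Perm (Fin k)))) τ
    have h2 := w0_le A (S.piecewise (Y ∘ (υ * τ⁻¹ : Equiv.Perm (Fin k))) X) τ
    rw [h, h']
    refine (add_le_add h1 h2).trans (le_of_eq ?_)
    unfold D
    rw [← sum_add_distrib, ← sum_add_distrib]
    refine sum_congr rfl fun i _ => ?_
    by_cases hi : τ i ∈ S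
    · simp [hi]
    · simp [hi, add_comm]

lemma w0_psi (A : Fin k → M) (p : (Fin k → M) × (Fin k → Fin k → M)) :
    -∑ i, ∑ j, dist (A i) (A j) ≤ Psi (w0 A) p := by
  obtain ⟨U, B⟩ := p
  unfold Psi
  simp only
  obtain ⟨σ, hσ⟩ := w0_eq A U
  choose τ hτ using fun i => w0_eq A (B i)
  have h1 : ∀ i, Dr (U (σ i)) (B (σ i)) ≤
      k * dist (A i) (U (σ i)) + ∑ j, dist (A i) (A j) + w0 A (B (σ i)) := by
    intro i
    rw [hτ (σ i), ← Dr_comp (U (σ i)) (B (σ i)) (τ (σ i))]
    unfold Dr D
    calc ∑ j, dist (U (σ i)) ((B (σ i) ∘ τ (σ i)) j)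
        ≤ ∑ j, (dist (A i) (U (σ i)) + dist (A i) (A j) +
            dist (A j) ((B (σ i) ∘ τ (σ i)) j)) := by
          refine sum_le_sum fun j _ => ?_
          have h2 := dist_triangle (U (σ i)) (A i) ((B (σ i) ∘ τ (σ i)) j)
          have h3 := dist_triangle (A i) (A j) ((B (σ i) ∘ τ (σ i)) j)
          rw [dist_comm (U (σ i)) (A i)] at h2
          linarith
      _ = _ := by
          rw [sum_add_distrib, sum_add_distrib]
          simp
  have h2 : ∑ i, (w0 A (B i) - Dr (U i) (B i)) =
      ∑ i, (w0 A (B (σ i)) - Dr (U (σ i)) (B (σ i))) :=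
    (Equiv.sum_comp σ (fun i => w0 A (B i) - Dr (U i) (B i))).symm
  have h3 : -(k * w0 A U) - ∑ i, ∑ j, dist (A i) (A j) ≤
      ∑ i, (w0 A (B (σ i)) - Dr (U (σ i)) (B (σ i))) := by
    have : ∑ i, (-(k * dist (A i) (U (σ i))) - ∑ j, dist (A i) (A j)) ≤
        ∑ i, (w0 A (B (σ i)) - Dr (U (σ i)) (B (σ i))) :=
      sum_le_sum fun i _ => by have := h1 i; linarith
    refine le_trans (le_of_eq ?_) this
    rw [sum_sub_distrib, sum_neg_distrib, ← mul_sum, hσ]
    rfl
  rw [h2]
  linarith

end Pool.Agent.X185.KS
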